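import Pool.Agent.LibB35.GS1

/-! Row F4 (BE35, last part): Chebyshev's inequality over the coefficients of one scale. SHORT/MEDIUM, 40 min. Only measure theory. -/

open MeasureTheory Set Filter Topology
open scoped ContDiff unitInterval

namespace B35

open BGS BR BE

variable {Γ : Type} [Group Γ] [MulAction Γ Pl] {D : Set Pl} {P : Dt} {ν : Measure I}

theorem mix_mix (n : ℕ) (ξ η η' : Dir → I) : mix n (mix n ξ η) η' = mix n ξ η' := by
  funext d
  unfold mix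
  split_ifs <;> rfl

theorem B_mix (κ : ℝ) (k : ℕ) (ξ η : Dir → I) :
    mix (bk k) ξ η ∈ P.B Γ D κ k ↔ ξ ∈ P.B Γ D κ k := by
  have h1 : zer (bk k) (mix (bk k) ξ η) = zer (bk k) ξ := by
    funext d
    unfold zer mix
    split_ifs <;> rfl
  unfold Dt.B Dt.X0
  rw [mem_ofPred_eq, mem_ofPred_eq, h1]

/-- Row F4. -/
theorem cheb [IsProbabilityMeasure ν] (n : ℕ) {B : Set (Dir → I)} (hB : MeasurableSet B)
    (hmix : ∀ ξ η, mix n ξ η ∈ B ↔ ξ ∈ B) {f : (Dir → I) → ℝ} (hf : Measurable f)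
    (hb : ∀ ξ ∈ B, ∃ C : ℝ, ∀ η, |f (mix n ξ η)| ≤ C) {V : ℝ}
    (hV : ∀ ξ ∈ B, |(∫ η, f (mix n ξ η) ^ 2 ∂Pm ν) - (∫ η, f (mix n ξ η) ∂Pm ν) ^ 2| ≤ V)
    {t : ℝ} (ht : 0 < t) :
    Pm ν {ξ | ξ ∈ B ∧ t ≤ |f ξ - ∫ η, f (mix n ξ η) ∂Pm ν|} ≤ ENNReal.ofReal (V / t ^ 2) := by
  have hP : IsProbabilityMeasure (Pm ν) := by
    unfold Pm
    infer_instance
  obtain ⟨F, hF⟩ : ∃ F : (Dir → I) → ℝ, F = fun ξ => ∫ η, f (mix n ξ η) ∂Pm ν := ⟨_, rfl⟩
  have hFe : ∀ ξ, ∫ η, f (mix n ξ η) ∂Pm ν = F ξ := fun ξ => by rw [hF]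
  simp only [hFe]
  have hFm : Measurable F := by
    have h1 : Measurable fun p : (Dir → I) × (Dir → I) => f (mix n p.1 p.2) :=
      hf.comp (meas_mix n)
    rw [hF]
    exact (h1.stronglyMeasurable.integral_prod_right').measurable
  have hFx : ∀ ξ η, F (mix n ξ η) = F ξ := by
    intro ξ η
    rw [hF]
    simp only [mix_mix]
  have hSm : MeasurableSet {ξ | ξ ∈ B ∧ t ≤ |f ξ - F ξ|} :=
    hB.inter (measurableSet_le measurable_const (continuous_abs.measurable.comp (hf.sub hFm)))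
  obtain ⟨S, hS⟩ : ∃ S : Set (Dir → I), S = {ξ | ξ ∈ B ∧ t ≤ |f ξ - F ξ|} := ⟨_, rfl⟩
  rw [← hS] at hSm ⊢
  have h2 : Pm ν S = ((Pm ν).prod (Pm ν))
      ((fun p : (Dir → I) × (Dir → I) => mix n p.1 p.2) ⁻¹' S) := by
    rw [← Measure.map_apply (meas_mix n) hSm, map_mix]
  rw [h2, Measure.prod_apply ((meas_mix n) hSm)]
  have h3 : ∀ ξ, Pm ν (Prod.mk ξ ⁻¹' ((fun p : (Dir → I) × (Dir → I) => mix n p.1 p.2) ⁻¹' S)) ≤
      ENNReal.ofReal (V / t ^ 2) := by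
    intro ξ
    by_cases hξ : ξ ∈ B
    · obtain ⟨C, hC⟩ := hb ξ hξ
      have hm1 : Measurable fun η => f (mix n ξ η) :=
        hf.comp ((meas_mix n).comp (measurable_const.prodMk measurable_id))
      have hX : MemLp (fun η => f (mix n ξ η)) 2 (Pm ν) :=
        MemLp.of_bound hm1.aestronglyMeasurable C (Eventually.of_forall fun η => hC η)
      have h4 := ProbabilityTheory.meas_ge_le_variance_div_sq hX ht
      have h5 : Prod.mk ξ ⁻¹' ((fun p : (Dir → I) × (Dir → I) => mix n p.1 p.2) ⁻¹' S) ⊆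
          {η | t ≤ |f (mix n ξ η) - ∫ η, f (mix n ξ η) ∂Pm ν|} := by
        intro η hη
        simp only [mem_preimage, hS, mem_ofPred_eq] at hη
        rw [mem_ofPred_eq, hFe ξ, ← hFx ξ η]
        exact hη.2
      refine (measure_mono h5).trans (h4.trans (ENNReal.ofReal_le_ofReal ?_))
      refine div_le_div_of_nonneg_right ?_ (by positivity)
      rw [ProbabilityTheory.variance_eq_sub hX]
      exact (le_abs_self _).trans (hV ξ hξ)
    · have h5 : Prod.mk ξ ⁻¹' ((fun p : (Dir → I) × (Dir → I) => mix n p.1 p.2) ⁻¹' S) = ∅ := by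
        ext η
        simp only [mem_preimage, hS, mem_ofPred_eq, mem_empty_iff_false, iff_false]
        exact fun h => hξ ((hmix ξ η).1 h.1)
      rw [h5, measure_empty]
      exact zero_le
  calc _ ≤ ∫⁻ _, ENNReal.ofReal (V / t ^ 2) ∂Pm ν := lintegral_mono h3
    _ = _ := by rw [lintegral_const, measure_univ, mul_one]

end B35
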