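import Pool.Agent.LibB35.GQ2b
import Pool.Agent.LibB35.GQ2c
import Pool.Agent.LibB35.GQ2d

/-! Row F3 (BE35, last part): the moments over a block are bounded on the fibres. SHORT, 30 min.
Plan. `R ≥ 1` with `a s = 0` for `R < |s|` (compact support). `fact1`, `fact2` (with `A = 0`), `fact3` with `K1 = max K 1`, `K' = 4 * R * K1`: for `η` arbitrary,
`|Sg ..| ≤ ∑ q ∈ Cs .., ‖zl ..‖ + C1`, `‖zl‖ ≤ ‖mz‖ + C2 * k^C2 * (2^k)^(-1/4) * wg + C2`, `‖mz‖ = ‖mt‖` (norm of the exponential is one),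
`‖mt (mix)‖ ≤ ‖mt (X0)‖ + exp (..) wg ≤ (C3 + 1) wg`: all bounds depend only on `k`, `ξ` (through `P.X0 Γ D k ξ`), not on `η`, `τ`. So `|Sg| ≤ B` on the window,
and `|M| ≤ B ^ r` (`intervalIntegral.norm_integral_le_of_norm_le_const`, no measurability needed; the `if` gives `0` otherwise; use `max B 1`). -/

open MeasureTheory Set Filter Topology
open scoped ContDiff unitInterval

namespace B35

open BGS BR BE

variable {Γ : Type} [Group Γ] [MulAction Γ Pl] {D : Set Pl} {P : Dt} {κ : ℝ}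

private theorem F3_supp {a : ℝ → ℂ} (ha : FG33.IsAmp a) :
    ∃ R : ℝ, 1 ≤ R ∧ ∀ s, R < |s| → a s = 0 := by
  obtain ⟨R0, hR0⟩ := ha.supp.isCompact.isBounded.exists_norm_le
  refine ⟨max R0 1, le_max_right _ _, fun s hs => ?_⟩
  by_contra h
  have h1 := hR0 s (subset_tsupport _ h)
  rw [Real.norm_eq_abs] at h1
  have h2 := le_max_left R0 1
  linarith

private theorem F3_mz (m : Pl → Co) (b : ℝ → ℂ) (τ : ℝ) (q : Cg Γ) : ‖mz m b τ q‖ = ‖mt m b q‖ := by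
  unfold mz
  rw [norm_mul, Complex.norm_exp]
  have h : (-(Complex.I * τ * ln m q)).re = 0 := by
    simp
  rw [h, Real.exp_zero, mul_one]

private theorem F3_pow {x B : ℝ} (h : |x| ≤ B) (r : ℕ) : ‖x ^ r‖ ≤ B ^ r := by
  rw [norm_pow, Real.norm_eq_abs]
  exact pow_le_pow_left₀ (abs_nonneg _) h r

/-- Row F3. -/
theorem M_bdd (hP : OkD Γ D P) (hκ : 0 < κ) {a : ℝ → ℂ} (ha : FG33.IsAmp a) {u v : ℝ}
    (hu : 0 < u) (huv : u < v) (K : ℝ) (N r : ℕ) : ∃ k0 : ℕ, ∀ k ≥ k0, ∀ ξ ∈ P.B Γ D κ k,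
      ∀ L : ℝ, 1 ≤ L → L ≤ K * k → ∃ B : ℝ, ∀ η : Dir → I,
        |P.M Γ D N a r u v k L (mix (bk k) ξ η)| ≤ B := by
  obtain ⟨R, hR, hR'⟩ := F3_supp ha
  have hK1 : (1 : ℝ) ≤ max K 1 := le_max_right _ _
  obtain ⟨C1, k1, h1⟩ := fact1 hP hκ ha hR hR' hu huv hK1 (K' := 4 * R * max K 1) le_rfl N 0
  obtain ⟨C2, k2, h2⟩ := fact2 hP hκ ha hR hR' hu huv hK1 (4 * R * max K 1) N 0
  obtain ⟨c, C3, k3, hc, h3⟩ := fact3 hP hκ ha (max K 1) (4 * R * max K 1)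
  refine ⟨max k1 (max k2 k3), fun k hk ξ hξ L hL hLK => ?_⟩
  have hk1 : k ≥ k1 := le_trans (le_max_left _ _) hk
  have hk2 : k ≥ k2 := le_trans ((le_max_left _ _).trans (le_max_right _ _)) hk
  have hk3 : k ≥ k3 := le_trans ((le_max_right _ _).trans (le_max_right _ _)) hk
  have hLK' : L ≤ max K 1 * k :=
    hLK.trans (mul_le_mul_of_nonneg_right (le_max_left _ _) (Nat.cast_nonneg _))
  set B0 : ℝ := C1 / (2 ^ k) ^ 0 + ∑ q ∈ Cs (Γ := Γ) (P.X0 Γ D k ξ) (4 * R * max K 1 * k),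
    ((C2 * (k : ℝ) ^ C2 * (2 ^ k : ℝ) ^ (-(1 / 4) : ℝ) * wg (P.X0 Γ D k ξ) q + C2 / (2 ^ k) ^ 0) +
      (Real.exp (-c * (k : ℝ) ^ (5 / 6 : ℝ)) * wg (P.X0 Γ D k ξ) q + C3 * wg (P.X0 Γ D k ξ) q))
    with hB0
  have hS : ∀ η : Dir → I, ∀ τ : ℝ, u * 2 ^ k ≤ τ → τ ≤ v * 2 ^ k →
      |Sg (Γ := Γ) D (P.X Γ D (mix (bk k) ξ η)) N (GWin.sc a L) τ| ≤ B0 := by
    intro η τ hτ1 hτ2
    have e1 := h1 k hk1 ξ hξ η L hL hLK' τ hτ1 hτ2
    have e2 : |∑ q ∈ Cs (Γ := Γ) (P.X0 Γ D k ξ) (4 * R * max K 1 * k),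
        (zl (P.X0 Γ D k ξ) (P.X Γ D (mix (bk k) ξ η)) (dl k) N (GWin.sc a L) τ q).re| ≤
        ∑ q ∈ Cs (Γ := Γ) (P.X0 Γ D k ξ) (4 * R * max K 1 * k),
          ((C2 * (k : ℝ) ^ C2 * (2 ^ k : ℝ) ^ (-(1 / 4) : ℝ) * wg (P.X0 Γ D k ξ) q +
            C2 / (2 ^ k) ^ 0) + (Real.exp (-c * (k : ℝ) ^ (5 / 6 : ℝ)) * wg (P.X0 Γ D k ξ) q +
              C3 * wg (P.X0 Γ D k ξ) q)) := by
      refine (Finset.abs_sum_le_sum_abs _ _).trans (Finset.sum_le_sum fun q hq => ?_)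
      have f1 := h2 k hk2 ξ hξ η L hL hLK' τ hτ1 hτ2 q hq
      obtain ⟨f2, f3⟩ := h3 k hk3 ξ hξ η L hL hLK' q hq
      have g1 := Complex.abs_re_le_norm
        (zl (P.X0 Γ D k ξ) (P.X Γ D (mix (bk k) ξ η)) (dl k) N (GWin.sc a L) τ q)
      have g2 := norm_le_norm_sub_add
        (zl (P.X0 Γ D k ξ) (P.X Γ D (mix (bk k) ξ η)) (dl k) N (GWin.sc a L) τ q)
        (mz (P.X Γ D (mix (bk k) ξ η)) (GWin.sc a L) τ q)
      have g3 := norm_le_norm_sub_add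
        (mt (P.X Γ D (mix (bk k) ξ η)) (GWin.sc a L) q) (mt (P.X0 Γ D k ξ) (GWin.sc a L) q)
      rw [F3_mz] at g2
      linarith
    have e3 := abs_sub_abs_le_abs_sub (Sg (Γ := Γ) D (P.X Γ D (mix (bk k) ξ η)) N (GWin.sc a L) τ)
      (∑ q ∈ Cs (Γ := Γ) (P.X0 Γ D k ξ) (4 * R * max K 1 * k),
        (zl (P.X0 Γ D k ξ) (P.X Γ D (mix (bk k) ξ η)) (dl k) N (GWin.sc a L) τ q).re)
    rw [hB0]
    linarith
  have h2k : (0 : ℝ) < 2 ^ k := by positivity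
  have hle : u * 2 ^ k ≤ v * 2 ^ k := mul_le_mul_of_nonneg_right huv.le h2k.le
  have hpos : 0 < (v - u) * 2 ^ k := mul_pos (sub_pos.2 huv) h2k
  refine ⟨max (B0 ^ r) 0, fun η => ?_⟩
  unfold Dt.M
  split_ifs with hneg
  · refine le_trans ?_ (le_max_left _ _)
    have hI := intervalIntegral.norm_integral_le_of_norm_le_const (a := u * 2 ^ k) (b := v * 2 ^ k)
      (C := B0 ^ r) (f := fun τ => Sg (Γ := Γ) D (P.X Γ D (mix (bk k) ξ η)) N (GWin.sc a L) τ ^ r)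
      (fun τ hτ => by
        rw [uIoc_of_le hle] at hτ
        exact F3_pow (hS η τ hτ.1.le hτ.2) r)
    have hab : |v * 2 ^ k - u * 2 ^ k| = (v - u) * 2 ^ k := by
      rw [← sub_mul, abs_of_pos hpos]
    rw [hab, Real.norm_eq_abs] at hI
    rw [abs_mul, abs_of_pos (one_div_pos.2 hpos), one_div, inv_mul_le_iff₀ hpos]
    linarith
  · rw [abs_zero]
    exact le_max_right _ _

end B35
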