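import Pool.Agent.LibBF73.F2
import Pool.Agent.LibBF73.F3
import Pool.Agent.LibBF73.F4
import Pool.Agent.LibB35.BK
import Pool.Agent.LibB35.GB4

/-! Row F5 (BE35, last part): Borel-Cantelli over the blocks. -/

open MeasureTheory Set Filter Topology
open scoped ContDiff unitInterval

namespace B35

open BGS BR BE

variable {Γ : Type} [Group Γ] [MulAction Γ Pl] {D : Set Pl} {P : Dt} {κ : ℝ} {ν : Measure I}
  {ρ : ℝ → ℝ}

/-- The errors of the blocks are summable. -/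
private theorem F5_sum {c : ℝ} (hc : 0 < c) (K : ℕ) : Summable fun k : ℕ =>
    ((K : ℝ) * k + 1) * Real.exp (-c * (k : ℝ) ^ (2 / 3 : ℝ)) := by
  have h1 : Summable fun k : ℕ => ((K : ℝ) + 1) * (720 / c ^ 6) * (1 / (k : ℝ) ^ 2) :=
    (Real.summable_one_div_nat_pow.mpr one_lt_two).mul_left _
  refine Summable.of_norm_bounded_eventually_nat h1 ?_
  filter_upwards [eventually_ge_atTop 1] with k hk
  have hk1 : (1 : ℝ) ≤ k := by exact_mod_cast hk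
  have hk0 : (0 : ℝ) < k := by linarith
  rw [Real.norm_of_nonneg (by positivity)]
  obtain ⟨x, hx⟩ : ∃ x : ℝ, x = c * (k : ℝ) ^ (2 / 3 : ℝ) := ⟨_, rfl⟩
  have hx0 : 0 ≤ x := by rw [hx]; positivity
  have h2 : x ^ 6 / 720 ≤ Real.exp x := by
    have h3 := Real.pow_div_factorial_le_exp x hx0 6
    have h4 : ((Nat.factorial 6 : ℕ) : ℝ) = 720 := by norm_num [Nat.factorial]
    rwa [h4] at h3
  have h3 : x ^ 6 = c ^ 6 * (k : ℝ) ^ 4 := by
    rw [hx, mul_pow]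
    congr 1
    rw [← Real.rpow_natCast, ← Real.rpow_mul hk0.le, ← Real.rpow_natCast]
    norm_num
  have h4 : Real.exp (-c * (k : ℝ) ^ (2 / 3 : ℝ)) ≤ 720 / (c ^ 6 * (k : ℝ) ^ 4) := by
    have h5 : -c * (k : ℝ) ^ (2 / 3 : ℝ) = -x := by rw [hx]; ring
    rw [h5, Real.exp_neg, ← h3, inv_le_comm₀ (Real.exp_pos _) (by rw [h3]; positivity)]
    calc (720 / x ^ 6)⁻¹ = x ^ 6 / 720 := by rw [inv_div]
      _ ≤ _ := h2
  calc ((K : ℝ) * k + 1) * Real.exp (-c * (k : ℝ) ^ (2 / 3 : ℝ))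
      ≤ (((K : ℝ) + 1) * (k : ℝ) ^ 2) * (720 / (c ^ 6 * (k : ℝ) ^ 4)) := by
        refine mul_le_mul ?_ h4 (Real.exp_pos _).le (by positivity)
        have hK : (0 : ℝ) ≤ K := Nat.cast_nonneg K
        nlinarith [mul_nonneg hK hk0.le]
    _ = ((K : ℝ) + 1) * (720 / c ^ 6) * (1 / (k : ℝ) ^ 2) := by
        field_simp

/-- Row F5. -/
theorem ae_M (hP : OkD Γ D P) (hν : Den ν ρ) (hκ : 0 < κ) {a : ℝ → ℂ} (ha : FG33.IsAmp a)
    {u v : ℝ} (hu : 0 < u) (huv : u < v) (K N r : ℕ) :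
    ∀ᵐ ξ ∂Pm ν, (∃ k1 : ℕ, ∀ k ≥ k1, ξ ∈ P.B Γ D κ k) → ∀ ε : ℝ, 0 < ε → ∃ k0 : ℕ, ∀ k ≥ k0,
      ∀ i : ℕ, (2 : ℝ) ^ i ≤ K * k → |P.M Γ D N a r u v k (2 ^ i) ξ -
        ∫ η, P.M Γ D N a r u v k (2 ^ i) (mix (bk k) ξ η) ∂Pm ν| ≤ ε := by
  classical
  haveI := hν.prob
  obtain ⟨c, k1, hc, h1⟩ := var_block hP hν hκ ha hu huv (K : ℝ) N r
  obtain ⟨k2, h2⟩ := M_bdd hP hκ ha hu huv (K : ℝ) N r
  obtain ⟨k3, hk3⟩ : ∃ k3 : ℕ, k3 = max k1 k2 := ⟨_, rfl⟩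
  obtain ⟨δ, hδ⟩ : ∃ δ : ℕ → ℝ, δ = fun k : ℕ =>
      Real.exp (-(c / 4) * (k : ℝ) ^ (2 / 3 : ℝ)) := ⟨_, rfl⟩
  have hδ0 : ∀ k, 0 < δ k := fun k => by rw [hδ]; exact Real.exp_pos _
  obtain ⟨E, hE⟩ : ∃ E : ℕ → ℕ → Set (Dir → I), E = fun k i => {ξ | ξ ∈ P.B Γ D κ k ∧
    δ k ≤ |P.M Γ D N a r u v k (2 ^ i) ξ -
      ∫ η, P.M Γ D N a r u v k (2 ^ i) (mix (bk k) ξ η) ∂Pm ν|} := ⟨_, rfl⟩
  have h3 : ∀ k ≥ k3, ∀ i : ℕ, (2 : ℝ) ^ i ≤ K * k →
      Pm ν (E k i) ≤ ENNReal.ofReal (Real.exp (-(c / 2) * (k : ℝ) ^ (2 / 3 : ℝ))) := by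
    intro k hk i hi
    have hk1 : k1 ≤ k := (le_max_left _ _).trans (hk3 ▸ hk)
    have hk2 : k2 ≤ k := (le_max_right _ _).trans (hk3 ▸ hk)
    have hi1 : (1 : ℝ) ≤ 2 ^ i := one_le_pow₀ one_le_two
    have h4 := cheb (bk k) ((meas_neg hP).2 κ k) (B_mix κ k)
      (meas_M hP ha u v N r k hi1) (h2 k hk2 · · _ hi1 hi)
      (h1 k hk1 · · _ hi1 hi) (hδ0 k)
    rw [hE]
    refine h4.trans (ENNReal.ofReal_le_ofReal (le_of_eq ?_))
    rw [div_eq_iff (pow_pos (hδ0 k) 2).ne', hδ, sq, ← Real.exp_add, ← Real.exp_add]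
    congr 1
    ring
  obtain ⟨s, hs⟩ : ∃ s : ℕ → Set (Dir → I), s = fun k =>
    if k3 ≤ k then ⋃ i ∈ (Finset.range (K * k + 1)).filter (fun i => (2 : ℝ) ^ i ≤ K * k), E k i
    else ∅ := ⟨_, rfl⟩
  have h4 : ∀ k, Pm ν (s k) ≤
      ENNReal.ofReal (((K : ℝ) * k + 1) * Real.exp (-(c / 2) * (k : ℝ) ^ (2 / 3 : ℝ))) := by
    intro k
    rw [hs]
    by_cases hk : k3 ≤ k
    · simp only [hk, if_true]
      refine (measure_biUnion_finset_le _ _).trans ?_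
      refine (Finset.sum_le_card_nsmul _ _ _ fun i hi => h3 k hk i (Finset.mem_filter.1 hi).2).trans ?_
      have h5 : (((Finset.range (K * k + 1)).filter (fun i => (2 : ℝ) ^ i ≤ K * k)).card : ℝ) ≤
          (K : ℝ) * k + 1 := by
        have h6 := Finset.card_filter_le (Finset.range (K * k + 1))
          (fun i => (2 : ℝ) ^ i ≤ K * k)
        rw [Finset.card_range] at h6
        exact_mod_cast h6
      rw [nsmul_eq_mul, ENNReal.ofReal_mul (by positivity)]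
      refine mul_le_mul_left ?_ _
      rw [← ENNReal.ofReal_natCast]
      exact ENNReal.ofReal_le_ofReal h5
    · simp only [hk, if_false, measure_empty]
      exact zero_le
  have h5 : (∑' k, Pm ν (s k)) ≠ ⊤ := by
    refine ne_top_of_le_ne_top ?_ (ENNReal.tsum_le_tsum h4)
    exact (F5_sum (half_pos hc) K).tsum_ofReal_ne_top
  filter_upwards [ae_eventually_notMem h5] with ξ hξ hB ε hε
  obtain ⟨k4, h6⟩ := hB
  obtain ⟨k5, h7⟩ := eventually_atTop.1 hξ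
  have h8 : Tendsto δ atTop (𝓝 0) := by
    rw [hδ]
    have h9 : Tendsto (fun k : ℕ => (k : ℝ) ^ (2 / 3 : ℝ)) atTop atTop :=
      (tendsto_rpow_atTop (by norm_num)).comp tendsto_natCast_atTop_atTop
    have h10 := h9.const_mul_atTop_of_neg (show -(c / 4) < 0 by linarith)
    exact Real.tendsto_exp_atBot.comp h10
  obtain ⟨k6, h9⟩ := eventually_atTop.1 (h8.eventually (gt_mem_nhds hε))
  refine ⟨max (max k3 k4) (max k5 k6), fun k hk i hi => ?_⟩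
  have a1 : k3 ≤ k := ((le_max_left _ _).trans (le_max_left _ _)).trans hk
  have a2 : k4 ≤ k := ((le_max_right _ _).trans (le_max_left _ _)).trans hk
  have a3 : k5 ≤ k := ((le_max_left _ _).trans (le_max_right _ _)).trans hk
  have a4 : k6 ≤ k := ((le_max_right _ _).trans (le_max_right _ _)).trans hk
  have h10 := h7 k a3
  have h11 : ξ ∉ E k i := by
    intro h12
    apply h10
    rw [hs]
    simp only [a1, if_true]
    refine mem_biUnion (x := i) ?_ h12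
    refine Finset.mem_coe.2 (Finset.mem_filter.2 ⟨Finset.mem_range.2 ?_, hi⟩)
    have h13 : (i : ℝ) < 2 ^ i := by exact_mod_cast Nat.lt_two_pow_self
    have h14 : (i : ℝ) < (K * k + 1 : ℕ) := by
      push_cast
      linarith
    exact_mod_cast h14
  rw [hE] at h11
  have h12 : ¬ (δ k ≤ |P.M Γ D N a r u v k (2 ^ i) ξ -
      ∫ η, P.M Γ D N a r u v k (2 ^ i) (mix (bk k) ξ η) ∂Pm ν|) := fun h => h11 ⟨h6 k a2, h⟩
  exact ((not_le.1 h12).trans (h9 k a4)).le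

end B35
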