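import Pool.Agent.LibBF73.F1
import Pool.Agent.LibB35.IFM
import Pool.Agent.LibB35.FA5
import Pool.Agent.LibB35.BK

/-! Row F6 (BE35, last part): from the moments of the geometric side to the moments of the linear statistic, for one metric. SHORT/MEDIUM, 40 min.
Plan. Given `j` (write `a = A j`), `r`, `K`, `u`, `v`, `ε`: `N` from `red_Sg hX hO m' ha K hu` (`hP.cx`, `hP.ori` give `Surface`, `Ori`). The `if` in `Dt.M` is true (`hξ`), so
`P.M .. r .. ξ` is the average of `Sg ^ r`, `m'.1.1 = P.X Γ D ξ`. With `g = gaussMom (vg a) (2 * r)` choose `ε1 ≤ 1` with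
`ε1 * (r * 2^(2r)) * (2 + |g|) ≤ ε / 2`; for `Λ`, `k0` large (`hM` for `2 * r` with `1`, for `r` with `ε/2`, `red_Sg` with `ε1`): pointwise on the window
`|st ^ r - Sg ^ r| ≤ ε1 * (r * 2 ^ (2 * r)) * (1 + Sg ^ (2 * r))` (`GWin.pow_diff`), so the averages differ by at most
`ε1 * (r * 2^(2r)) * (1 + P.M .. (2 * r) .. ξ)`. Integrability on the window: `st` is continuous (`GWin.st_cont ha (GD.lev ..)`), so bounded there; `Sg` is
measurable in `τ` (`meas_Sg` at the fixed point `⟨ξ, hξ⟩`; `Amp (sc a L)` from `amp_sc`) and bounded (`|Sg| ≤ |st| + ε1`), so its powers are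
interval integrable (`Measure.integrableOn_of_bounded`, `intervalIntegrable_iff_integrableOn_Ioc_of_le`). -/

open MeasureTheory Set Filter Topology
open scoped ContDiff unitInterval

namespace B35

open BGS BR BE

variable {Γ : Type} [Group Γ] [MulAction Γ Pl] {D : Set Pl} {P : Dt}

/-- The radius of the support of an amplitude. -/
theorem F6_supp {a : ℝ → ℂ} (ha : FG33.IsAmp a) :
    ∃ R : ℝ, 0 ≤ R ∧ ∀ s, R < |s| → a s = 0 := by
  obtain ⟨R, hR0, hR⟩ := ha.supp.isCompact.isBounded.exists_pos_norm_lt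
  refine ⟨R, hR0.le, fun s hs => ?_⟩
  by_contra h0
  have := hR s (subset_tsupport a h0)
  rw [Real.norm_eq_abs] at this
  linarith

theorem F6_int {f g : ℝ → ℝ} {A B ε : ℝ} (hAB : A < B) (hf : Continuous f) (hg : Measurable g)
    (h : ∀ τ ∈ Icc A B, |f τ - g τ| ≤ ε) (n : ℕ) :
    IntervalIntegrable (fun τ => g τ ^ n) volume A B := by
  obtain ⟨C, hC⟩ := isCompact_Icc.exists_bound_of_continuousOn (hf.continuousOn (s := Icc A B))
  rw [intervalIntegrable_iff_integrableOn_Ioc_of_le hAB.le]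
  refine Measure.integrableOn_of_bounded (M := (C + ε) ^ n) ?_
    (hg.pow_const n).aestronglyMeasurable ?_
  · simp
  · refine (ae_restrict_iff' measurableSet_Ioc).mpr (Eventually.of_forall fun τ hτ => ?_)
    have h1 := h τ ⟨hτ.1.le, hτ.2⟩
    have h2 := hC τ ⟨hτ.1.le, hτ.2⟩
    rw [norm_pow]
    refine pow_le_pow_left₀ (norm_nonneg _) ?_ n
    rw [Real.norm_eq_abs] at h2 ⊢
    have h3 := abs_sub_abs_le_abs_sub (g τ) (f τ)
    rw [abs_sub_comm] at h3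
    linarith

/-- The difference of the averages of the powers of two close functions. -/
theorem F6_avg {f g : ℝ → ℝ} {A B ε : ℝ} (hAB : A < B) (hf : Continuous f) (hg : Measurable g)
    (hε1 : ε ≤ 1) (h : ∀ τ ∈ Icc A B, |f τ - g τ| ≤ ε) (r : ℕ) :
    |1 / (B - A) * (∫ τ in A..B, f τ ^ r) - 1 / (B - A) * ∫ τ in A..B, g τ ^ r| ≤
      ε * (r * 2 ^ (2 * r)) * (1 + 1 / (B - A) * ∫ τ in A..B, g τ ^ (2 * r)) := by
  have hBA : 0 < B - A := by linarith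
  have hi := F6_int hAB hf hg h
  have hfi : IntervalIntegrable (fun τ => f τ ^ r) volume A B := (hf.pow r).intervalIntegrable _ _
  rw [← mul_sub, ← intervalIntegral.integral_sub hfi (hi r), abs_mul,
    abs_of_pos (by positivity : 0 < 1 / (B - A))]
  have h4 : |∫ τ in A..B, (f τ ^ r - g τ ^ r)| ≤
      ∫ τ in A..B, ε * (r * 2 ^ (2 * r)) * (1 + g τ ^ (2 * r)) := by
    rw [← Real.norm_eq_abs]
    refine intervalIntegral.norm_integral_le_of_norm_le hAB.le ?_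
      ((intervalIntegrable_const.add (hi (2 * r))).const_mul _)
    refine Eventually.of_forall fun τ hτ => ?_
    rw [Real.norm_eq_abs]
    exact GWin.pow_diff (h τ ⟨hτ.1.le, hτ.2⟩) hε1 r
  calc 1 / (B - A) * |∫ τ in A..B, (f τ ^ r - g τ ^ r)|
      ≤ 1 / (B - A) * ∫ τ in A..B, ε * (r * 2 ^ (2 * r)) * (1 + g τ ^ (2 * r)) := by gcongr
    _ = _ := by
      rw [intervalIntegral.integral_const_mul, intervalIntegral.integral_add
        intervalIntegrable_const (hi (2 * r)), intervalIntegral.integral_const, smul_eq_mul]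
      field_simp

theorem F6_meas (hP : OkD Γ D P) {ξ : Dir → I} (hξ : ∀ z, curv (P.X Γ D ξ) z < 0) (N : ℕ)
    {b : ℝ → ℂ} {ρ M : ℝ} (hb : Amp b ρ M) :
    Measurable fun τ : ℝ => Sg (Γ := Γ) D (P.X Γ D ξ) N b τ := by
  have h0 := meas_Sg hP N hb
  have h00 : Measurable fun τ : ℝ =>
      ((⟨ξ, hξ⟩, τ) : {ξ : Dir → I // ∀ z, curv (P.X Γ D ξ) z < 0} × ℝ) :=
    measurable_const.prodMk measurable_id
  have h1 := h0.comp h00
  simp only [Function.comp_def] at h1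
  exact h1

/-- Row F6. -/
theorem st_blocks (hP : OkD Γ D P) {ξ : Dir → I} (hξ : ∀ z, curv (P.X Γ D ξ) z < 0)
    (m' : Mt Γ D) (hm' : m'.1.1 = P.X Γ D ξ) {A : ℕ → ℝ → ℂ} (hA : ∀ j, FG33.IsAmp (A j))
    (hM : ∀ (j N r K : ℕ) (u v : ℚ), 0 < u → u < v → ∀ ε : ℝ, 0 < ε → ∃ (Λ : ℝ) (k0 : ℕ),
      ∀ k ≥ k0, ∀ i : ℕ, Λ ≤ 2 ^ i → (2 : ℝ) ^ i ≤ K * k →
        |P.M Γ D N (A j) r u v k (2 ^ i) ξ - Mes.gaussMom (GWin.vg (A j)) r| ≤ ε) :
    BK (FG33.lam m') A := by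
  intro j r K u v hu huv ε hε
  have hu' : (0 : ℝ) < u := by exact_mod_cast hu
  have huv' : (u : ℝ) < v := by exact_mod_cast huv
  have ha := hA j
  obtain ⟨N, hN⟩ := red_Sg hP.cx.hX hP.ori m' ha K hu'
  obtain ⟨R, hR0, hR⟩ := F6_supp ha
  obtain ⟨M, -, hM'⟩ := amp_sc ha hR0 hR 0
  set g := Mes.gaussMom (GWin.vg (A j)) (2 * r) with hg
  set W : ℝ := (r : ℝ) * 2 ^ (2 * r) * (2 + |g|) with hW
  have hW0 : 0 ≤ W := by positivity
  set ε1 : ℝ := min 1 (ε / (2 * (W + 1))) with hε1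
  have hε1p : 0 < ε1 := lt_min one_pos (by positivity)
  have hε1W : ε1 * W ≤ ε / 2 := by
    have h0 : ε1 ≤ ε / (2 * (W + 1)) := min_le_right _ _
    calc ε1 * W ≤ ε / (2 * (W + 1)) * (W + 1) := by
          gcongr
          linarith
      _ = ε / 2 := by field_simp
  obtain ⟨Λ1, k1, hΛ1, h1⟩ := hN ε1 hε1p
  obtain ⟨Λ2, k2, h2⟩ := hM j N r K u v hu huv (ε / 2) (by positivity)
  obtain ⟨Λ3, k3, h3⟩ := hM j N (2 * r) K u v hu huv 1 one_pos
  refine ⟨max Λ1 (max Λ2 Λ3), max k1 (max k2 k3), fun k hk i hi hiK => ?_⟩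
  have hk1 : k1 ≤ k := (le_max_left _ _).trans hk
  have hk2 : k2 ≤ k := ((le_max_left _ _).trans (le_max_right _ _)).trans hk
  have hk3 : k3 ≤ k := ((le_max_right _ _).trans (le_max_right _ _)).trans hk
  have hi1 : Λ1 ≤ 2 ^ i := (le_max_left _ _).trans hi
  have hi2 : Λ2 ≤ 2 ^ i := ((le_max_left _ _).trans (le_max_right _ _)).trans hi
  have hi3 : Λ3 ≤ 2 ^ i := ((le_max_right _ _).trans (le_max_right _ _)).trans hi
  have hL1 : (1 : ℝ) ≤ 2 ^ i := hΛ1.trans hi1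
  have hL0 : (0 : ℝ) < 2 ^ i := by positivity
  have hAB : (u : ℝ) * 2 ^ k < (v : ℝ) * 2 ^ k := mul_lt_mul_of_pos_right huv' (by positivity)
  have hst : Continuous (GWin.st (FG33.lam m') (A j) (2 ^ i)) :=
    GWin.st_cont ha (GD.lev hP.cx.hX m') hL0
  have hmg : Measurable fun τ : ℝ =>
      Sg (Γ := Γ) D (P.X Γ D ξ) N (GWin.sc (A j) (2 ^ i)) τ :=
    F6_meas hP hξ N (hM' (2 ^ i) hL1).1.amp
  have hcl : ∀ τ ∈ Icc ((u : ℝ) * 2 ^ k) ((v : ℝ) * 2 ^ k),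
      |GWin.st (FG33.lam m') (A j) (2 ^ i) τ -
        Sg (Γ := Γ) D (P.X Γ D ξ) N (GWin.sc (A j) (2 ^ i)) τ| ≤ ε1 := by
    intro τ hτ
    have h0 := h1 k hk1 (2 ^ i) hi1 hiK τ hτ.1
    rwa [hm'] at h0
  have hd := F6_avg hAB hst hmg (min_le_left _ _) hcl r
  have e2 := h2 k hk2 i hi2 hiK
  have e3 := h3 k hk3 i hi3 hiK
  simp only [Dt.M, if_pos hξ] at e2 e3
  rw [show (v : ℝ) * 2 ^ k - (u : ℝ) * 2 ^ k = ((v : ℝ) - u) * 2 ^ k by ring] at hd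
  set I0 := 1 / (((v : ℝ) - u) * 2 ^ k) * ∫ τ in ((u : ℝ) * 2 ^ k)..((v : ℝ) * 2 ^ k),
    GWin.st (FG33.lam m') (A j) (2 ^ i) τ ^ r
  set I1 := 1 / (((v : ℝ) - u) * 2 ^ k) * ∫ τ in ((u : ℝ) * 2 ^ k)..((v : ℝ) * 2 ^ k),
    Sg (Γ := Γ) D (P.X Γ D ξ) N (GWin.sc (A j) (2 ^ i)) τ ^ r
  set I2 := 1 / (((v : ℝ) - u) * 2 ^ k) * ∫ τ in ((u : ℝ) * 2 ^ k)..((v : ℝ) * 2 ^ k),
    Sg (Γ := Γ) D (P.X Γ D ξ) N (GWin.sc (A j) (2 ^ i)) τ ^ (2 * r)
  have e4 : 1 + I2 ≤ 2 + |g| := by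
    have h5 := (abs_le.mp e3).2
    have h6 := le_abs_self g
    linarith
  have e5 : ε1 * (r * 2 ^ (2 * r)) * (1 + I2) ≤ ε / 2 := by
    calc ε1 * (r * 2 ^ (2 * r)) * (1 + I2) ≤ ε1 * (r * 2 ^ (2 * r)) * (2 + |g|) := by gcongr
      _ = ε1 * W := by rw [hW]; ring
      _ ≤ ε / 2 := hε1W
  calc |I0 - Mes.gaussMom (GWin.vg (A j)) r|
      = |(I0 - I1) + (I1 - Mes.gaussMom (GWin.vg (A j)) r)| := by ring_nf
    _ ≤ |I0 - I1| + |I1 - Mes.gaussMom (GWin.vg (A j)) r| := abs_add_le _ _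
    _ ≤ ε / 2 + ε / 2 := add_le_add (hd.trans e5) e2
    _ = ε := by ring

end B35
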