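import Pool.Agent.LibB35.GQ1b
import Pool.Agent.LibBE73.X7
import Pool.Agent.LibBE88.V13
import Pool.Agent.LibGWa.U4
import Pool.Agent.LibGD33.Asm2

/-! Row F1 (BE35, last part): from the linear statistic to the geometric side, for one metric. SHORT/MEDIUM, 40 min.
Plan. Repeat `GWin.reduction` (LibGWa/U4) with `BE73.traceN hX hO m' (BE.growth hX hO (hm_of_Mt m'))` in place of `Trace`: its finsum
is `Sg` by unfolding (`Sg`, `IKN`), its `BR.hh (osc ..)` is `GWin.hh ..` (`GD.hh_osc`). Amplitude: `amp_sc` (LibB35/GQ1b) with `R` from the compact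
support of `a` (see `GWin.st_moments`, first lines): `AmpN N (sc a L) (R * L) M` for all `L ≥ 1`. `Lev (lam m')`: `GD.lev hX m'` (LibGD33/Asm2).
With `C` from `traceN` choose `N ≥ 6` with `C * R * (|K| + 1) < (N - 5) * log 2` BEFORE `ε`; then for `L ≤ K k`, `τ ≥ u 2^k ≥ 1`:
`(R L + 1)^(2N) / √τ ≤ (R |K| k + 1)^(2N) / √(u 2^k) → 0` and `exp (C R L) / τ^(N-5) ≤ (exp (C R |K|) / 2^(N-5))^k / u^(N-5) → 0`; the other terms
are `≤ C' / L ≤ C' / Λ`. -/

open MeasureTheory Set Filter Topology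
open scoped ContDiff unitInterval

namespace B35

open BGS BR BE

variable {Γ : Type} [Group Γ] [MulAction Γ Pl] {D : Set Pl}

private theorem F1_sqrt_pow (k : ℕ) : √((2 : ℝ) ^ k) = √2 ^ k := by
  induction k with
  | zero => simp
  | succ k ih => rw [pow_succ, pow_succ, Real.sqrt_mul (by positivity), ih]

private theorem F1_lim1 (c : ℝ) (n : ℕ) {u : ℝ} (hc : 0 ≤ c) :
    Tendsto (fun k : ℕ => (c * k + 1) ^ n / √(u * 2 ^ k)) atTop (𝓝 0) := by
  rcases le_or_gt u 0 with hu | hu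
  · have : (fun k : ℕ => (c * k + 1) ^ n / √(u * 2 ^ k)) = fun _ => 0 := by
      funext k
      rw [Real.sqrt_eq_zero_of_nonpos (mul_nonpos_of_nonpos_of_nonneg hu (by positivity)), div_zero]
    rw [this]
    exact tendsto_const_nhds
  have h2 : 1 < √(2 : ℝ) := by
    rw [Real.lt_sqrt (by norm_num)]
    norm_num
  have h1 : Tendsto (fun k : ℕ => (c + 1) ^ n / √u * ((k : ℝ) ^ n * (√2)⁻¹ ^ k)) atTop (𝓝 0) := by
    have h3 : |(√(2 : ℝ))⁻¹| < 1 := by
      rw [abs_of_pos (by positivity)]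
      exact inv_lt_one_of_one_lt₀ h2
    have := (tendsto_pow_const_mul_const_pow_of_abs_lt_one n h3).const_mul ((c + 1) ^ n / √u)
    rwa [mul_zero] at this
  refine squeeze_zero' (Eventually.of_forall fun k => by positivity) ?_ h1
  filter_upwards [eventually_ge_atTop 1] with k hk
  have hk' : (1 : ℝ) ≤ k := by exact_mod_cast hk
  have h4 : c * k + 1 ≤ (c + 1) * k := by nlinarith
  have h5 : √(u * 2 ^ k) = √u * √2 ^ k := by
    rw [Real.sqrt_mul hu.le, F1_sqrt_pow]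
  rw [h5]
  have hu' : 0 < √u := Real.sqrt_pos.2 hu
  calc (c * k + 1) ^ n / (√u * √2 ^ k) ≤ ((c + 1) * k) ^ n / (√u * √2 ^ k) := by gcongr
    _ = (c + 1) ^ n / √u * ((k : ℝ) ^ n * (√2)⁻¹ ^ k) := by
      rw [mul_pow, inv_pow]
      field_simp

private theorem F1_lim2 {A u : ℝ} (n : ℕ) (h : A + 1 ≤ n * Real.log 2) :
    Tendsto (fun k : ℕ => Real.exp (A * k) / (u * 2 ^ k) ^ n) atTop (𝓝 0) := by
  have h1 : (fun k : ℕ => Real.exp (A * k) / (u * 2 ^ k) ^ n) =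
      fun k : ℕ => (u ^ n)⁻¹ * (Real.exp (A - n * Real.log 2)) ^ k := by
    funext k
    have h2 : ((2 : ℝ) ^ k) ^ n = Real.exp (n * Real.log 2) ^ k := by
      rw [Real.exp_nat_mul, Real.exp_log (by norm_num)]
      rw [← pow_mul, ← pow_mul, mul_comm]
    rw [mul_pow, h2, Real.exp_sub, div_pow, ← Real.exp_nat_mul, ← Real.exp_nat_mul, mul_comm A k]
    rw [div_eq_mul_inv, div_eq_mul_inv, mul_inv]
    ring
  rw [h1]
  have h3 : Real.exp (A - n * Real.log 2) < 1 := by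
    rw [Real.exp_lt_one_iff]
    linarith
  have := (tendsto_pow_atTop_nhds_zero_of_lt_one (Real.exp_pos _).le h3).const_mul (u ^ n)⁻¹
  rwa [mul_zero] at this

/-- Row F1. -/
theorem red_Sg (hX : Surface Γ D) (hO : Ori Γ) (m' : Mt Γ D) {a : ℝ → ℂ} (ha : FG33.IsAmp a)
    (K : ℝ) {u : ℝ} (hu : 0 < u) : ∃ N : ℕ, ∀ ε : ℝ, 0 < ε → ∃ (Λ : ℝ) (k0 : ℕ), 1 ≤ Λ ∧
      ∀ k ≥ k0, ∀ L : ℝ, Λ ≤ L → L ≤ K * k → ∀ τ : ℝ, u * 2 ^ k ≤ τ →
        |GWin.st (FG33.lam m') a L τ - Sg (Γ := Γ) D m'.1.1 N (GWin.sc a L) τ| ≤ ε := by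
  obtain ⟨R, hR0, hR⟩ : ∃ R : ℝ, 0 ≤ R ∧ ∀ s, R < |s| → a s = 0 := by
    obtain ⟨R, hR0, hR⟩ := ha.supp.isCompact.isBounded.exists_pos_norm_lt
    refine ⟨R, hR0.le, fun s hs => ?_⟩
    by_contra h0
    have := hR s (subset_tsupport a h0)
    rw [Real.norm_eq_abs] at this
    linarith
  obtain ⟨C, hC, hT⟩ := BE73.traceN hX hO m' (BE.growth hX hO (hm_of_Mt m'))
  have hl := GD.lev hX m'
  obtain ⟨C2, hC2, h2⟩ := GWin.weyl_term ha
  obtain ⟨C3, hC3, h3⟩ := GWin.refl_sum ha hl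
  have hlog : 0 < Real.log 2 := Real.log_pos (by norm_num)
  obtain ⟨n1, hn1⟩ := exists_nat_ge ((C * (R * |K|) + 1) / Real.log 2)
  have hn1' : C * (R * |K|) + 1 ≤ n1 * Real.log 2 := by
    rwa [div_le_iff₀ hlog] at hn1
  obtain ⟨N, hN⟩ : ∃ N, N = n1 + 6 := ⟨_, rfl⟩
  have hN5 : C * (R * |K|) + 1 ≤ ((N - 5 : ℕ) : ℝ) * Real.log 2 := by
    have e : N - 5 = n1 + 1 := by omega
    rw [e]
    push_cast
    nlinarith
  obtain ⟨B, hB, hT⟩ := hT N (by omega)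
  obtain ⟨M, hM1, hM⟩ := amp_sc ha hR0 hR N
  -- the inequality for all `L`, `τ`
  have main : ∀ L τ : ℝ, 1 ≤ L → 1 ≤ τ →
      |GWin.st (FG33.lam m') a L τ - Sg (Γ := Γ) D m'.1.1 N (GWin.sc a L) τ| ≤
        B * M * ((R * L + 1) ^ (2 * N) / √τ + Real.exp (C * (R * L)) / τ ^ (N - 5)) +
          (C2 + C3) / L := by
    intro L τ hL hτ
    have hL0 : 0 < L := by linarith
    have h5 := hT (GWin.sc a L) (R * L) M τ (by positivity) (hM L hL).1 hτ
    simp only [← GD.hh_osc] at h5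
    rw [GWin.hh_sum ha hl hL hτ] at h5
    have h6 := h2 L τ hL hτ
    have h7 := (h3 L τ hL hτ).2
    change |_ - _ - Sg (Γ := Γ) D m'.1.1 N (GWin.sc a L) τ| ≤ _ at h5
    set S1 := ∑' n, FG33.tf a (L * (FG33.lam m' n - τ)) with hS1
    set S2 := ∑' n, FG33.tf a (L * (-FG33.lam m' n - τ)) with hS2
    set W := 1 / (2 * Real.pi) * (∫ y in Ioi (0 : ℝ), GWin.hh (GWin.sc a L) τ y * y) with hW
    set V := τ / (2 * Real.pi * L) * ∫ y, FG33.tf a y with hV
    have e1 : GWin.st (FG33.lam m') a L τ - Sg (Γ := Γ) D m'.1.1 N (GWin.sc a L) τ =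
        (S1 + S2 - W - Sg (Γ := Γ) D m'.1.1 N (GWin.sc a L) τ) + (W - V) - S2 := by
      unfold GWin.st
      rw [← hS1, ← hV]
      ring
    rw [e1]
    refine ((abs_sub _ _).trans (add_le_add ((abs_add_le _ _).trans (add_le_add h5 h6)) h7)).trans ?_
    rw [add_div, add_assoc]
  refine ⟨N, fun ε hε => ?_⟩
  have hlim : Tendsto (fun k : ℕ => B * M * ((R * |K| * k + 1) ^ (2 * N) / √(u * 2 ^ k) +
      Real.exp (C * (R * |K|) * k) / (u * 2 ^ k) ^ (N - 5))) atTop (𝓝 0) := by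
    have := ((F1_lim1 (R * |K|) (2 * N) (u := u) (by positivity)).add
      (F1_lim2 (u := u) (N - 5) hN5)).const_mul (B * M)
    rwa [add_zero, mul_zero] at this
  have hlim2 : Tendsto (fun k : ℕ => u * 2 ^ k) atTop atTop :=
    (tendsto_pow_atTop_atTop_of_one_lt (by norm_num : (1 : ℝ) < 2)).const_mul_atTop hu
  obtain ⟨k0, hk0⟩ := eventually_atTop.1 ((hlim.eventually (gt_mem_nhds (half_pos hε))).and
    (hlim2.eventually (eventually_ge_atTop 1)))
  refine ⟨max 1 (2 * (C2 + C3) / ε), k0, le_max_left _ _, fun k hk L hL hLK τ hτ => ?_⟩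
  obtain ⟨h8, h9⟩ := hk0 k hk
  have hL1 : 1 ≤ L := (le_max_left _ _).trans hL
  have hL0 : 0 < L := by linarith
  have hL2 : 2 * (C2 + C3) / ε ≤ L := (le_max_right _ _).trans hL
  have hτ1 : 1 ≤ τ := h9.trans hτ
  have hk' : (0 : ℝ) ≤ k := Nat.cast_nonneg k
  have hLk : L ≤ |K| * k := hLK.trans (mul_le_mul_of_nonneg_right (le_abs_self K) hk')
  have hRL : R * L ≤ R * |K| * k := by
    rw [mul_assoc]
    exact mul_le_mul_of_nonneg_left hLk hR0
  have h10 : (C2 + C3) / L ≤ ε / 2 := by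
    rw [div_le_iff₀ hε] at hL2
    rw [div_le_iff₀ hL0]
    linarith
  have hpos : 0 < u * 2 ^ k := by positivity
  have h11 : (R * L + 1) ^ (2 * N) / √τ ≤ (R * |K| * k + 1) ^ (2 * N) / √(u * 2 ^ k) := by
    have := Real.sqrt_pos.2 hpos
    have := Real.sqrt_le_sqrt hτ
    gcongr
  have h12 : Real.exp (C * (R * L)) / τ ^ (N - 5) ≤
      Real.exp (C * (R * |K|) * k) / (u * 2 ^ k) ^ (N - 5) := by
    have h13 : C * (R * L) ≤ C * (R * |K|) * k := by
      have := mul_le_mul_of_nonneg_left hRL hC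
      linarith
    gcongr
  have hBM : 0 ≤ B * M := mul_nonneg hB (by linarith)
  have h14 := mul_le_mul_of_nonneg_left (add_le_add h11 h12) hBM
  have h15 := main L τ hL1 hτ1
  linarith

end B35
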