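import Pool.Agent.LibB35.IFM
import Pool.Agent.LibB35.GQ1b

/-! Row F2 (BE35, last part): measurability of the moments over a block. SHORT, 30 min.
Plan. `amp_sc` (LibB35/GQ1b; `R` from the compact support of `a`) gives `Amp (sc a L) (R L) M` (`.amp`), so `meas_Sg` (interface IFM): `(ξ, τ) ↦ Sg ..` is
measurable on `{ξ // neg} × ℝ`, hence so is its power, and the interval integral over `τ` (definition: difference of two set integrals;
`MeasureTheory.StronglyMeasurable.integral_prod_right'`, `Measurable.stronglyMeasurable`) is measurable on the subtype. `Dt.M` is a dependent `if`: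
`Measurable.dite` with `(meas_neg hP).1` (restate `Dt.M` with `if h : ξ ∈ {..}`), or `measurable_of_restrict_of_restrict_compl`. -/

open MeasureTheory Set Filter Topology
open scoped ContDiff unitInterval

namespace B35

open BGS BR BE

variable {Γ : Type} [Group Γ] [MulAction Γ Pl] {D : Set Pl} {P : Dt}

/-- Row F2. -/
theorem meas_M (hP : OkD Γ D P) {a : ℝ → ℂ} (ha : FG33.IsAmp a) (u v : ℝ) (N r k : ℕ) {L : ℝ}
    (hL : 1 ≤ L) : Measurable fun ξ : Dir → I => P.M Γ D N a r u v k L ξ := by
  classical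
  obtain ⟨R, hR0, hR⟩ : ∃ R : ℝ, 0 ≤ R ∧ ∀ s, R < |s| → a s = 0 := by
    obtain ⟨R, hR⟩ := ha.supp.isCompact.isBounded.subset_closedBall (0 : ℝ)
    refine ⟨max R 0, le_max_right _ _, fun s hs => ?_⟩
    by_contra hcon
    have h1 : s ∈ tsupport a := subset_tsupport a hcon
    have h2 := hR h1
    rw [mem_closedBall_zero_iff, Real.norm_eq_abs] at h2
    have h3 := le_max_left R 0
    linarith
  obtain ⟨M, hM, hamp⟩ := amp_sc ha hR0 hR 0
  have hb : Amp (GWin.sc a L) (R * L) M := (hamp L hL).1.amp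
  have h1 := (meas_Sg hP N hb).pow_const r
  set A : Set (Dir → I) := {ξ : Dir → I | ∀ z, curv (P.X Γ D ξ) z < 0} with hA
  have hAm : MeasurableSet A := (meas_neg hP).1
  have h2 : StronglyMeasurable fun q : A × ℝ =>
      Sg (Γ := Γ) D (P.X Γ D q.1.1) N (GWin.sc a L) q.2 ^ r := h1.stronglyMeasurable
  have h3 := h2.integral_prod_right' (ν := volume.restrict (Ioc (u * 2 ^ k) (v * 2 ^ k)))
  have h4 := h2.integral_prod_right' (ν := volume.restrict (Ioc (v * 2 ^ k) (u * 2 ^ k)))
  have h5 : Measurable fun w : A => 1 / ((v - u) * 2 ^ k) *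
      ∫ τ in (u * 2 ^ k)..(v * 2 ^ k), Sg (Γ := Γ) D (P.X Γ D w.1) N (GWin.sc a L) τ ^ r :=
    (h3.sub h4).measurable.const_mul _
  refine measurable_of_restrict_of_restrict_compl hAm ?_ ?_
  · have e : A.domRestrict (fun ξ : Dir → I => P.M Γ D N a r u v k L ξ) = fun w : A =>
        1 / ((v - u) * 2 ^ k) *
        ∫ τ in (u * 2 ^ k)..(v * 2 ^ k), Sg (Γ := Γ) D (P.X Γ D w.1) N (GWin.sc a L) τ ^ r := by
      funext w
      exact if_pos w.2
    rw [e]
    exact h5
  · have e : Aᶜ.domRestrict (fun ξ : Dir → I => P.M Γ D N a r u v k L ξ) = fun _ => 0 := by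
      funext w
      exact if_neg w.2
    rw [e]
    exact measurable_const

end B35
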