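import Pool.Agent.LibBF73.F5
import Pool.Agent.LibBF73.F6
import Pool.Agent.LibB35.GB4
import Pool.Agent.LibB35.GL4

/-! The last part F1: the blocks, for almost every metric. -/

open MeasureTheory Set Filter Topology
open scoped ContDiff unitInterval

namespace B35

open BGS BR BE

variable {Γ : Type} [Group Γ] [MulAction Γ Pl] {D : Set Pl} {P : Dt} {ν : Measure I} {ρ : ℝ → ℝ}

private theorem F7_B {κ κ' : ℝ} (h0 : 0 ≤ κ') (h : κ' ≤ κ) (k : ℕ) {ξ : Dir → I}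
    (hξ : ξ ∈ P.B Γ D κ k) : ξ ∈ P.B Γ D κ' k := by
  intro z
  have h1 := hξ z
  have h2 : κ' ^ 2 ≤ κ ^ 2 := pow_le_pow_left₀ h0 h 2
  linarith

/-- Part F1 (probabilistic), assembly. -/
theorem ae_blocks' (hP : OkD Γ D P) (hν : Den ν ρ) {A : ℕ → ℝ → ℂ} (hA : ∀ j, FG33.IsAmp (A j)) :
    ∀ᵐ ξ ∂Pm ν, (∀ z, curv (P.X Γ D ξ) z < 0) → ∀ m' : Mt Γ D, m'.1.1 = P.X Γ D ξ →
      BK (FG33.lam m') A := by
  have h1 : ∀ᵐ ξ ∂Pm ν, ∀ (n j N r K : ℕ) (q : {q : ℚ × ℚ // 0 < q.1 ∧ q.1 < q.2}),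
      (∃ k1 : ℕ, ∀ k ≥ k1, ξ ∈ P.B Γ D (1 / ((n : ℝ) + 1)) k) → ∀ ε : ℝ, 0 < ε →
      ∃ k0 : ℕ, ∀ k ≥ k0, ∀ i : ℕ, (2 : ℝ) ^ i ≤ K * k →
        |P.M Γ D N (A j) r q.1.1 q.1.2 k (2 ^ i) ξ -
        ∫ η, P.M Γ D N (A j) r q.1.1 q.1.2 k (2 ^ i) (mix (bk k) ξ η) ∂Pm ν| ≤ ε := by
    simp only [ae_all_iff]
    intro n j N r K q
    have h2 : (0 : ℝ) < q.1.1 := by exact_mod_cast q.2.1
    have h3 : (q.1.1 : ℝ) < q.1.2 := by exact_mod_cast q.2.2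
    exact ae_M hP hν (by positivity) (hA j) h2 h3 K N r
  filter_upwards [h1] with ξ hξ hneg m' hm'
  refine st_blocks hP hneg m' hm' hA fun j N r K u v hu huv ε hε => ?_
  have h2 : (0 : ℝ) < u := by exact_mod_cast hu
  have h3 : (u : ℝ) < v := by exact_mod_cast huv
  obtain ⟨κ, hκ, k1, hk1⟩ := in_block hP hneg
  obtain ⟨n, hn⟩ := exists_nat_one_div_lt hκ
  obtain ⟨k2, h4⟩ := hξ n j N r K ⟨(u, v), hu, huv⟩
    ⟨k1, fun k hk => F7_B (by positivity) hn.le k (hk1 k hk)⟩ (ε / 2) (half_pos hε)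
  obtain ⟨Λ, k3, h5⟩ := mean_block hP hν hneg (hA j) h2 h3 (K : ℝ) N r (half_pos hε)
  refine ⟨Λ, max k2 k3, fun k hk i hi hi' => ?_⟩
  have h6 := h4 k ((le_max_left _ _).trans hk) i hi'
  have h7 := h5 k ((le_max_right _ _).trans hk) (2 ^ i) hi hi'
  have h8 : P.M Γ D N (A j) r u v k (2 ^ i) ξ - Mes.gaussMom (GWin.vg (A j)) r =
      (P.M Γ D N (A j) r u v k (2 ^ i) ξ -
        ∫ η, P.M Γ D N (A j) r u v k (2 ^ i) (mix (bk k) ξ η) ∂Pm ν) +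
      ((∫ η, P.M Γ D N (A j) r u v k (2 ^ i) (mix (bk k) ξ η) ∂Pm ν) -
        Mes.gaussMom (GWin.vg (A j)) r) := by ring
  rw [h8]
  exact (abs_add_le _ _).trans (by linarith)

end B35
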