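import Pool.Agent.LibGN33.G8

/-! Row V0 (GenericWindows v5): a slow growth of the lengths with prescribed values at special times. -/

open MeasureTheory Set Filter Topology
open scoped ContDiff unitInterval

namespace B35

open BGS BGM GN33

variable {Γ : Type} [Group Γ] [MulAction Γ Pl] {D : Set Pl}

theorem slow_pre (hX : Surface Γ D) (m : Mt Γ D) (hm : ∀ n : ℕ, QI Γ m.1.1 n) {L : ℝ → ℝ}
    (hL1 : ∀ T, 1 ≤ L T) (hL : Tendsto (fun T => L T / Real.log T) atTop (𝓝 0)) {t : ℕ → ℝ}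
    (ht : ∀ n : ℕ, (n : ℝ) ≤ t n)
    (ht' : ∀ n : ℕ, QG Γ m.1.1 n (n * L (t n)) ((t n) ^ (-(1 / 2) : ℝ))) :
    ∃ Lam : ℝ → ℝ, Tendsto Lam atTop atTop ∧
      Tendsto (fun T => Lam T / Real.log T) atTop (𝓝 0) ∧ SepG Γ m.1.1 Lam ∧
      ∀ n, L (t n) ≤ Lam (t n) := by
  classical
  have h2 : ∀ n : ℕ, ∃ δ : ℝ, 0 < δ ∧ ∀ (s : Finset Γ) (e : Γ → ℤ), Adm m.1.1 n s e →
      δ ≤ |∑ g ∈ s, (e g : ℝ) * tl m.1.1 g| := fun n => exists_gap hX m (hm n)
  choose δ hδ hδ' using h2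
  obtain ⟨Ls, hs1, hs2, hs3⟩ := slow δ hδ hδ'
  obtain ⟨Lam, hLam⟩ : ∃ Lam : ℝ → ℝ, Lam = fun T =>
    if T ∈ Set.range t then max (Ls T) (L T) else Ls T := ⟨_, rfl⟩
  have hge : ∀ T, Ls T ≤ Lam T := by
    intro T
    simp only [hLam]
    split_ifs
    · exact le_max_left _ _
    · exact le_rfl
  have hor : ∀ T, Lam T = Ls T ∨ (T ∈ Set.range t ∧ Lam T = L T) := by
    intro T
    simp only [hLam]
    split_ifs with h
    · rcases max_choice (Ls T) (L T) with h3 | h3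
      · exact Or.inl h3
      · exact Or.inr ⟨h, h3⟩
    · exact Or.inl rfl
  refine ⟨Lam, tendsto_atTop_mono hge hs1, ?_, ?_, ?_⟩
  · rw [Metric.tendsto_nhds] at hs2 hL ⊢
    intro ε hε
    filter_upwards [hs2 ε hε, hL ε hε] with T h3 h4
    rcases hor T with h5 | ⟨-, h5⟩ <;> rw [h5]
    · exact h3
    · exact h4
  · intro r C
    obtain ⟨n₀, hn₀⟩ := exists_nat_ge C
    have h3 : ∀ᶠ T : ℝ in atTop, ∀ n : ℕ, n < max r n₀ → T ≠ t n := by
      have h4 : ∀ᶠ T : ℝ in atTop, ∀ n ∈ Finset.range (max r n₀), T ≠ t n :=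
        (Filter.eventually_all_finset _).2 fun n _ => eventually_ne_atTop _
      filter_upwards [h4] with T hT n hn
      exact hT n (Finset.mem_range.2 hn)
    filter_upwards [hs3 r C, h3] with T h4 h5 s e hsr hp hnc he hl hne
    rcases hor T with h6 | ⟨⟨n, rfl⟩, h6⟩
    · rw [h6] at he hl
      exact h4 s e hsr hp hnc he hl hne
    · rw [h6] at he hl
      have h7 : max r n₀ ≤ n := by
        by_contra h
        exact h5 n (not_le.1 h) rfl
      have h8 : r ≤ n := (le_max_left _ _).trans h7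
      have h9 : C ≤ (n : ℝ) := hn₀.trans (by exact_mod_cast (le_max_right r n₀).trans h7)
      have h10 : C * L (t n) ≤ n * L (t n) :=
        mul_le_mul_of_nonneg_right h9 (zero_le_one.trans (hL1 _))
      have h11 : (s.card : ℝ) ≤ n * L (t n) := by
        have h12 : (s.card : ℝ) ≤ n := by exact_mod_cast hsr.trans h8
        exact h12.trans (le_mul_of_one_le_right (Nat.cast_nonneg _) (hL1 _))
      exact (ht' n s e (hsr.trans h8) ⟨h11, hp, hnc, fun g hg => (he g hg).trans h10,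
        fun g hg => (hl g hg).trans h10, hne⟩).le
  · intro n
    simp only [hLam]
    rw [if_pos ⟨n, rfl⟩]
    exact le_max_right _ _

theorem V0_sqrt : Tendsto (fun T : ℝ => max 1 √(Real.logb 2 T) / Real.log T) atTop (𝓝 0) := by
  have h1 : Tendsto (fun T : ℝ => 1 / Real.log T) atTop (𝓝 0) :=
    tendsto_const_nhds.div_atTop Real.tendsto_log_atTop
  have hlog2 : 0 < Real.log 2 := Real.log_pos one_lt_two
  have h2 : Tendsto (fun T : ℝ => √(Real.logb 2 T) / Real.log T) atTop (𝓝 0) := by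
    have h3 : Tendsto (fun y : ℝ => (√(Real.log 2))⁻¹ * (√y)⁻¹) atTop (𝓝 0) := by
      have h4 := (Real.tendsto_sqrt_atTop.inv_tendsto_atTop).const_mul (√(Real.log 2))⁻¹
      rw [mul_zero] at h4
      exact h4
    refine (h3.comp Real.tendsto_log_atTop).congr' ?_
    filter_upwards [eventually_gt_atTop 1] with T hT
    have h5 : 0 < Real.log T := Real.log_pos hT
    rw [Function.comp_apply, Real.logb, Real.sqrt_div h5.le]
    have h6 : √(Real.log T) * √(Real.log T) = Real.log T := Real.mul_self_sqrt h5.le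
    have h7 : 0 < √(Real.log T) := Real.sqrt_pos.2 h5
    have h8 : 0 < √(Real.log 2) := Real.sqrt_pos.2 hlog2
    rw [← mul_inv, div_div, ← one_div, div_eq_div_iff (by positivity) (by positivity)]
    nlinarith
  have h3 : Tendsto (fun T : ℝ => max (1 / Real.log T) (√(Real.logb 2 T) / Real.log T)) atTop
      (𝓝 (max 0 0)) := h1.max h2
  rw [max_self] at h3
  refine h3.congr' ?_
  filter_upwards [eventually_gt_atTop 1] with T hT
  exact (max_div_div_right (Real.log_pos hT).le _ _)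

theorem slow_at (hX : Surface Γ D) (m : Mt Γ D) (hm : ∀ n : ℕ, QI Γ m.1.1 n) {k : ℕ → ℕ}
    (hk : ∀ n, n ≤ k n) (hk1 : ∀ n, 1 ≤ k n)
    (h : ∀ n : ℕ, QG Γ m.1.1 n (n * √(k n)) ((2 ^ k n : ℝ) ^ (-(1 / 2) : ℝ))) :
    ∃ Lam : ℝ → ℝ, Tendsto Lam atTop atTop ∧
      Tendsto (fun T => Lam T / Real.log T) atTop (𝓝 0) ∧ SepG Γ m.1.1 Lam ∧
      ∀ n, √(k n) ≤ Lam (2 ^ k n) := by
  have e1 : ∀ n, max 1 √(Real.logb 2 (2 ^ k n)) = √(k n) := by
    intro n
    rw [Real.logb_pow, Real.logb_self_eq_one one_lt_two, mul_one]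
    refine max_eq_right ?_
    rw [Real.one_le_sqrt]
    exact_mod_cast hk1 n
  obtain ⟨Lam, h1, h2, h3, h4⟩ := slow_pre hX m hm (L := fun T => max 1 √(Real.logb 2 T))
    (fun T => le_max_left _ _) V0_sqrt (t := fun n => 2 ^ k n) (fun n => by
      have h5 : (n : ℝ) ≤ k n := by exact_mod_cast hk n
      have h6 : (k n : ℝ) < 2 ^ k n := by exact_mod_cast Nat.lt_two_pow_self
      linarith) (fun n => by
      have h5 := h n
      rw [← e1 n] at h5
      exact h5)
  refine ⟨Lam, h1, h2, h3, fun n => ?_⟩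
  have h5 := h4 n
  rwa [e1 n] at h5

end B35
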