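import Pool.Agent.LibGD33.Asm2
import Pool.Agent.LibGWa.U4

/-! Row V2 (GenericWindows v5): the moments of the linear statistic over a window are continuous functions of
the metric. -/

open MeasureTheory Set Filter Topology
open scoped ContDiff ENNReal NNReal

namespace B35

open BGS BR

variable {Γ : Type} [Group Γ] [MulAction Γ Pl] {D : Set Pl}

/-- The levels of nearby metrics are comparable. -/
theorem near_lam (hX : Surface Γ D) (m : Mt Γ D) :
    ∀ᶠ m' in 𝓝 m, ∀ k, FG33.lam m k + 1 ≤ 2 * (FG33.lam m' k + 1) := by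
  filter_upwards [lvl_near hX m (η := 1) one_pos] with m' hm' k
  have h2 := (hm' k).2
  have hk' : lvl m' k ≠ ⊤ := lvl_ne_top hX m' k
  have h3 : x m k ≤ 2 * x m' k := by
    have h4 := ENNReal.toReal_mono (ENNReal.mul_ne_top (by simp) hk') h2
    rw [ENNReal.toReal_mul] at h4
    have h5 : ((1 : ℝ≥0∞) + ((1 : ℝ≥0) : ℝ≥0∞)).toReal = 2 := by
      norm_num
    rw [h5] at h4
    exact h4
  have h6 : FG33.lam m k ≤ 2 * FG33.lam m' k := by
    unfold FG33.lam
    have hpi := Real.pi_pos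
    have h7 : 0 ≤ x m' k := ENNReal.toReal_nonneg
    refine Real.sqrt_le_iff.2 ⟨by positivity, ?_⟩
    rw [mul_pow, Real.sq_sqrt (by positivity)]
    nlinarith [mul_nonneg hpi.le h7]
  linarith

theorem lam_cont (hX : Surface Γ D) (k : ℕ) : Continuous fun m : Mt Γ D => FG33.lam m k := by
  unfold FG33.lam
  exact Real.continuous_sqrt.comp (continuous_const.mul (OPN_cont hX k))

/-- The bound of the terms of the statistic of the metrics near `m`. -/
private theorem V2_term (hX : Surface Γ D) (m : Mt Γ D) {a : ℝ → ℂ} {B : ℝ} (hB : 0 < B)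
    (hb : ∀ y, |FG33.tf a y| ≤ B / (1 + |y|) ^ 4) {L : ℝ} (hL : 1 ≤ L) {m' : Mt Γ D}
    (hm' : ∀ k, FG33.lam m k + 1 ≤ 2 * (FG33.lam m' k + 1)) (τ : ℝ) (k : ℕ) :
    |FG33.tf a (L * (FG33.lam m' k - τ))| ≤
      16 * B * (1 + |τ|) ^ 4 * (1 / (FG33.lam m k + 1) ^ 4) := by
  have h1 := GWin.term_bound hB hb (GD.lev hX m') (by linarith : 0 < L) τ k
  rw [min_eq_left hL, div_one] at h1
  refine h1.trans ?_
  have h2 := (GD.lev hX m).nn k
  have h3 := (GD.lev hX m').nn k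
  have h4 : 1 / (FG33.lam m' k + 1) ^ 4 ≤ 16 * (1 / (FG33.lam m k + 1) ^ 4) := by
    have h5 : (FG33.lam m k + 1) ^ 4 ≤ (2 * (FG33.lam m' k + 1)) ^ 4 :=
      pow_le_pow_left₀ (by linarith) (hm' k) 4
    rw [mul_pow] at h5
    rw [mul_one_div, div_le_div_iff₀ (by positivity) (by positivity)]
    linarith
  calc B * (1 + |τ|) ^ 4 * (1 / (FG33.lam m' k + 1) ^ 4)
      ≤ B * (1 + |τ|) ^ 4 * (16 * (1 / (FG33.lam m k + 1) ^ 4)) :=
        mul_le_mul_of_nonneg_left h4 (by positivity)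
    _ = _ := by ring

/-- The bound of the statistic of the metrics near `m`. -/
theorem st_bddM (hX : Surface Γ D) (m : Mt Γ D) {a : ℝ → ℂ} (ha : FG33.IsAmp a) {L : ℝ}
    (hL : 1 ≤ L) : ∃ C : ℝ, 0 ≤ C ∧ ∀ᶠ m' in 𝓝 m, ∀ τ : ℝ,
      |GWin.st (FG33.lam m') a L τ| ≤ C * (1 + |τ|) ^ 4 := by
  obtain ⟨B, hB, hb⟩ := GWin.tf_decay ha
  obtain ⟨Z, hZ⟩ : ∃ Z : ℝ, Z = ∑' k, 1 / (FG33.lam m k + 1) ^ 4 := ⟨_, rfl⟩
  have hZ0 : 0 ≤ Z := by
    rw [hZ]
    refine tsum_nonneg fun k => ?_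
    have := (GD.lev hX m).nn k
    positivity
  refine ⟨16 * B * Z + |∫ y, FG33.tf a y|, by positivity, ?_⟩
  filter_upwards [near_lam hX m] with m' hm' τ
  have h1 : |∑' k, FG33.tf a (L * (FG33.lam m' k - τ))| ≤ 16 * B * (1 + |τ|) ^ 4 * Z := by
    have hs := (GWin.zsum (GD.lev hX m)).mul_left (16 * B * (1 + |τ|) ^ 4)
    have h2 := tsum_of_norm_bounded hs.hasSum (f := fun k =>
      FG33.tf a (L * (FG33.lam m' k - τ))) fun k => by
        rw [Real.norm_eq_abs]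
        exact V2_term hX m hB hb hL hm' τ k
    rw [Real.norm_eq_abs, tsum_mul_left, ← hZ] at h2
    exact h2
  have hpi := Real.pi_gt_three
  have h3 : |τ / (2 * Real.pi * L) * ∫ y, FG33.tf a y| ≤ (1 + |τ|) ^ 4 * |∫ y, FG33.tf a y| := by
    rw [abs_mul]
    refine mul_le_mul_of_nonneg_right ?_ (abs_nonneg _)
    rw [abs_div, abs_of_pos (by positivity : 0 < 2 * Real.pi * L)]
    have h4 : |τ| / (2 * Real.pi * L) ≤ |τ| := by
      refine div_le_self (abs_nonneg _) ?_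
      nlinarith
    have h5 : 1 + |τ| ≤ (1 + |τ|) ^ 4 := by
      have h6 : (1 : ℝ) ≤ 1 + |τ| := by linarith [abs_nonneg τ]
      calc 1 + |τ| = (1 + |τ|) ^ 1 := (pow_one _).symm
        _ ≤ (1 + |τ|) ^ 4 := pow_le_pow_right₀ h6 (by norm_num)
    linarith
  unfold GWin.st
  refine (abs_sub _ _).trans ?_
  calc _ ≤ 16 * B * (1 + |τ|) ^ 4 * Z + (1 + |τ|) ^ 4 * |∫ y, FG33.tf a y| := add_le_add h1 h3
    _ = _ := by ring

private theorem V2_uc {a : ℝ → ℂ} (ha : FG33.IsAmp a) : UniformContinuous (FG33.tf a) := by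
  obtain ⟨B, hB, hb⟩ := GWin.tf_decay ha
  refine (GWin.tf_cont ha).uniformContinuous_of_tendsto_cocompact (x := 0) ?_
  have h1 : Tendsto (fun y : ℝ => B / (1 + |y|)) (cocompact ℝ) (𝓝 0) := by
    refine Tendsto.div_atTop tendsto_const_nhds ?_
    exact tendsto_atTop_add_const_left _ _ tendsto_norm_cocompact_atTop
  refine squeeze_zero_norm (fun y => ?_) h1
  rw [Real.norm_eq_abs]
  refine (hb y).trans ?_
  have h2 : (1 : ℝ) ≤ 1 + |y| := by linarith [abs_nonneg y]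
  exact div_le_div_of_nonneg_left hB.le (by linarith) (le_self_pow₀ h2 (by norm_num))

/-- The statistic depends continuously on the metric, uniformly on compact sets of times. -/
theorem st_unifM (hX : Surface Γ D) (m : Mt Γ D) {a : ℝ → ℂ} (ha : FG33.IsAmp a) {L : ℝ}
    (hL : 1 ≤ L) (R : ℝ) {ε : ℝ} (hε : 0 < ε) : ∀ᶠ m' in 𝓝 m, ∀ τ : ℝ, |τ| ≤ R →
      |GWin.st (FG33.lam m') a L τ - GWin.st (FG33.lam m) a L τ| ≤ ε := by
  obtain ⟨B, hB, hb⟩ := GWin.tf_decay ha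
  obtain ⟨A, hA⟩ : ∃ A : ℝ, A = 16 * B * (1 + |R|) ^ 4 := ⟨_, rfl⟩
  have hA0 : 0 ≤ A := by rw [hA]; positivity
  have hz := GWin.zsum (GD.lev hX m)
  have h1 := tendsto_sum_nat_add fun k => 1 / (FG33.lam m k + 1) ^ 4
  obtain ⟨K, hK⟩ := (h1.eventually (gt_mem_nhds (show (0 : ℝ) < ε / (4 * (A + 1)) by
    positivity))).exists
  obtain ⟨δ, hδ, hδ'⟩ := Metric.uniformContinuous_iff.1 (V2_uc ha) (ε / (2 * (K + 1)))
    (by positivity)
  have h2 : ∀ᶠ m' in 𝓝 m, ∀ k ∈ Finset.range K, |FG33.lam m' k - FG33.lam m k| < δ / L := by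
    refine (Filter.eventually_all_finset _).2 fun k _ => ?_
    have h3 := Metric.tendsto_nhds.1 ((lam_cont hX k).tendsto m) (δ / L) (by positivity)
    filter_upwards [h3] with m' hm'
    rwa [Real.dist_eq] at hm'
  filter_upwards [near_lam hX m, h2] with m' hm' hk τ hτ
  have hL0 : 0 < L := by linarith
  have hτ' : 16 * B * (1 + |τ|) ^ 4 ≤ A := by
    rw [hA]
    have h3 : |τ| ≤ |R| := hτ.trans (le_abs_self R)
    gcongr
  have hm0 : ∀ k, FG33.lam m k + 1 ≤ 2 * (FG33.lam m k + 1) := fun k => by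
    have := (GD.lev hX m).nn k
    linarith
  have hz0 : ∀ k, 0 ≤ 1 / (FG33.lam m k + 1) ^ 4 := fun k => by
    have := (GD.lev hX m).nn k
    positivity
  have s1 := GWin.term_summable ha (GD.lev hX m') hL0 τ
  have s2 := GWin.term_summable ha (GD.lev hX m) hL0 τ
  have s3 := s1.sub s2
  have e1 : GWin.st (FG33.lam m') a L τ - GWin.st (FG33.lam m) a L τ =
      ∑' k, (FG33.tf a (L * (FG33.lam m' k - τ)) - FG33.tf a (L * (FG33.lam m k - τ))) := by
    rw [s1.tsum_sub s2]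
    unfold GWin.st
    ring
  rw [e1, ← s3.sum_add_tsum_nat_add K]
  have b1 : |∑ k ∈ Finset.range K, (FG33.tf a (L * (FG33.lam m' k - τ)) -
      FG33.tf a (L * (FG33.lam m k - τ)))| ≤ ε / 2 := by
    refine (Finset.abs_sum_le_sum_abs _ _).trans ?_
    have h3 : ∀ k ∈ Finset.range K, |FG33.tf a (L * (FG33.lam m' k - τ)) -
        FG33.tf a (L * (FG33.lam m k - τ))| ≤ ε / (2 * (K + 1)) := by
      intro k hk'
      have h4 := hδ' (a := L * (FG33.lam m' k - τ)) (b := L * (FG33.lam m k - τ)) (by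
        rw [Real.dist_eq, ← mul_sub, abs_mul, abs_of_pos hL0, sub_sub_sub_cancel_right]
        have h5 := hk k hk'
        rw [lt_div_iff₀ hL0] at h5
        linarith)
      rw [Real.dist_eq] at h4
      exact h4.le
    refine (Finset.sum_le_card_nsmul _ _ _ h3).trans ?_
    rw [Finset.card_range, nsmul_eq_mul]
    have hK0 : (0 : ℝ) ≤ K := Nat.cast_nonneg K
    rw [mul_div_assoc', div_le_div_iff₀ (by positivity) (by norm_num)]
    nlinarith
  have b2 : |∑' k, (FG33.tf a (L * (FG33.lam m' (k + K) - τ)) -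
      FG33.tf a (L * (FG33.lam m (k + K) - τ)))| ≤ ε / 2 := by
    have s4 := ((summable_nat_add_iff K).2 hz).mul_left (2 * A)
    have h3 := tsum_of_norm_bounded s4.hasSum (f := fun k =>
      FG33.tf a (L * (FG33.lam m' (k + K) - τ)) - FG33.tf a (L * (FG33.lam m (k + K) - τ)))
      fun k => by
        rw [Real.norm_eq_abs]
        refine (abs_sub _ _).trans ?_
        have h4 := V2_term hX m hB hb hL hm' τ (k + K)
        have h5 := V2_term hX m hB hb hL hm0 τ (k + K)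
        have h6 : 16 * B * (1 + |τ|) ^ 4 * (1 / (FG33.lam m (k + K) + 1) ^ 4) ≤
            A * (1 / (FG33.lam m (k + K) + 1) ^ 4) :=
          mul_le_mul_of_nonneg_right hτ' (hz0 _)
        linarith
    rw [Real.norm_eq_abs, tsum_mul_left] at h3
    refine h3.trans ?_
    have h4 : 2 * A * ∑' k, 1 / (FG33.lam m (k + K) + 1) ^ 4 ≤ 2 * A * (ε / (4 * (A + 1))) :=
      mul_le_mul_of_nonneg_left hK.le (by positivity)
    refine h4.trans ?_
    rw [mul_div_assoc', div_le_div_iff₀ (by positivity) (by norm_num)]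
    nlinarith
  exact (abs_add_le _ _).trans (by linarith)

/-- Row V2, with a weight. -/
theorem blk_cont_wt (hX : Surface Γ D) {a : ℝ → ℂ} (ha : FG33.IsAmp a) {L : ℝ} (hL : 1 ≤ L)
    (α β : ℝ) (r : ℕ) {w : ℝ → ℝ} (hw : Continuous w) :
    Continuous fun m : Mt Γ D => ∫ τ in α..β, w τ * GWin.st (FG33.lam m) a L τ ^ r := by
  rw [continuous_iff_continuousAt]
  intro m
  obtain ⟨C, hC, hb⟩ := st_bddM hX m ha hL
  obtain ⟨R, hR⟩ : ∃ R : ℝ, R = max |α| |β| := ⟨_, rfl⟩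
  obtain ⟨W, hW0, hW⟩ : ∃ W : ℝ, 0 ≤ W ∧ ∀ τ ∈ uIcc α β, |w τ| ≤ W := by
    obtain ⟨W, hW⟩ := isCompact_uIcc.exists_bound_of_continuousOn hw.continuousOn (s := uIcc α β)
    exact ⟨max W 0, le_max_right _ _, fun τ hτ => (hW τ hτ).trans (le_max_left _ _)⟩
  have hab : ∀ τ ∈ uIcc α β, |τ| ≤ R := by
    intro τ hτ
    rw [hR]
    rcases le_total α β with h | h
    · rw [uIcc_of_le h] at hτ
      exact abs_le_max_abs_abs hτ.1 hτ.2
    · rw [uIcc_of_ge h] at hτ
      rw [max_comm]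
      exact abs_le_max_abs_abs hτ.1 hτ.2
  have hR0 : 0 ≤ R := (abs_nonneg _).trans (le_max_left _ _ |>.trans (le_of_eq hR.symm))
  obtain ⟨M, hM⟩ : ∃ M : ℝ, M = C * (1 + R) ^ 4 := ⟨_, rfl⟩
  have hM0 : 0 ≤ M := by rw [hM]; positivity
  rw [ContinuousAt, Metric.tendsto_nhds]
  intro ε hε
  obtain ⟨c, hc⟩ : ∃ c : ℝ, c = W * (r * M ^ (r - 1)) * |β - α| := ⟨_, rfl⟩
  have hc0 : 0 ≤ c := by rw [hc]; positivity
  filter_upwards [hb, st_unifM hX m ha hL R (show 0 < ε / (2 * (c + 1)) by positivity)]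
    with m' h1 h2
  have h3 := hb.self_of_nhds
  have hL0 : 0 < L := by linarith
  have c1 : Continuous fun τ => w τ * GWin.st (FG33.lam m') a L τ ^ r :=
    hw.mul ((GWin.st_cont ha (GD.lev hX m') hL0).pow r)
  have c2 : Continuous fun τ => w τ * GWin.st (FG33.lam m) a L τ ^ r :=
    hw.mul ((GWin.st_cont ha (GD.lev hX m) hL0).pow r)
  rw [Real.dist_eq, ← intervalIntegral.integral_sub (c1.intervalIntegrable _ _)
    (c2.intervalIntegrable _ _), ← Real.norm_eq_abs]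
  have h4 : ‖∫ τ in α..β, (w τ * GWin.st (FG33.lam m') a L τ ^ r -
      w τ * GWin.st (FG33.lam m) a L τ ^ r)‖ ≤
      W * (ε / (2 * (c + 1)) * r * M ^ (r - 1)) * |β - α| := by
    refine intervalIntegral.norm_integral_le_of_norm_le_const fun τ hτ => ?_
    have hτ' : τ ∈ uIcc α β := uIoc_subset_uIcc hτ
    have h5 := hab τ hτ'
    rw [← mul_sub, norm_mul, Real.norm_eq_abs, Real.norm_eq_abs]
    refine mul_le_mul (hW τ hτ') ?_ (abs_nonneg _) hW0
    refine (abs_pow_sub_pow_le _ _ r).trans ?_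
    have h6 : ∀ y : ℝ, |y| ≤ C * (1 + |τ|) ^ 4 → |y| ≤ M := by
      intro y hy
      refine hy.trans ?_
      rw [hM]
      gcongr
    have h7 : max |GWin.st (FG33.lam m') a L τ| |GWin.st (FG33.lam m) a L τ| ≤ M :=
      max_le (h6 _ (h1 τ)) (h6 _ (h3 τ))
    have h8 := h2 τ h5
    have h9 : max |GWin.st (FG33.lam m') a L τ| |GWin.st (FG33.lam m) a L τ| ^ (r - 1) ≤
        M ^ (r - 1) := pow_le_pow_left₀ (le_max_of_le_left (abs_nonneg _)) h7 _
    gcongr
  refine lt_of_le_of_lt h4 ?_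
  have h5 : W * (ε / (2 * (c + 1)) * r * M ^ (r - 1)) * |β - α| = c * (ε / (2 * (c + 1))) := by
    rw [hc]
    ring
  rw [h5, mul_div_assoc', div_lt_iff₀ (by positivity)]
  nlinarith

/-- Row V2. -/
theorem blk_cont (hX : Surface Γ D) {a : ℝ → ℂ} (ha : FG33.IsAmp a) {L : ℝ} (hL : 1 ≤ L)
    (α β : ℝ) (r : ℕ) :
    Continuous fun m : Mt Γ D => ∫ τ in α..β, GWin.st (FG33.lam m) a L τ ^ r := by
  have h1 := blk_cont_wt hX ha hL α β r (w := fun _ => 1) continuous_const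
  simpa only [one_mul] using h1

end B35
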