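import Pool.Agent.LibBF73.V3b
import Pool.Agent.LibGN33.G8

/-! Row V3 (GenericWindows v5): for almost every random metric the small combinations of lengths
exceed every power of the time. -/

open MeasureTheory Set Filter Topology
open scoped ContDiff unitInterval

namespace B35

open BGS BGM

variable {Γ : Type} [Group Γ] [MulAction Γ Pl] {D : Set Pl} {P : Dt} {ν : Measure I} {ρ : ℝ → ℝ}

private theorem V3_cn (C : ℝ) (hC : 0 < C) : ∀ᶠ T : ℕ in atTop,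
    Real.exp (-(T * √(T : ℝ)) / 2) ≤ cn ⌈Real.exp (C * T)⌉₊ := by
  have h1 : Tendsto (fun T : ℕ => (T : ℝ) ^ (1 / 4 : ℝ)) atTop atTop :=
    (tendsto_rpow_atTop (by norm_num)).comp tendsto_natCast_atTop_atTop
  filter_upwards [h1.eventually_ge_atTop (2 * (C + 2) ^ (5 / 4 : ℝ)), eventually_ge_atTop 1]
    with T hT hT1
  have hT1' : (1 : ℝ) ≤ T := by exact_mod_cast hT1
  have hT0 : (0 : ℝ) ≤ T := by linarith
  unfold cn
  apply Real.exp_le_exp.2
  have h2 : (⌈Real.exp (C * T)⌉₊ : ℝ) + 1 ≤ Real.exp ((C + 2) * T) := by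
    have h3 := (Nat.ceil_lt_add_one (Real.exp_pos (C * T)).le).le
    have h4 : 1 ≤ Real.exp (C * T) := Real.one_le_exp (by positivity)
    have h5 : Real.exp ((C + 2) * T) = Real.exp (C * T) * Real.exp (2 * T) := by
      rw [← Real.exp_add]
      congr 1
      ring
    have h6 : (3 : ℝ) ≤ Real.exp (2 * T) := by
      have := Real.add_one_le_exp (2 * (T : ℝ))
      linarith
    rw [h5]
    have h7 := mul_le_mul_of_nonneg_left h6 (Real.exp_pos (C * T)).le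
    linarith
  have h3 : Real.log ((⌈Real.exp (C * T)⌉₊ : ℝ) + 1) ≤ (C + 2) * T := by
    rw [← Real.log_exp ((C + 2) * T)]
    exact Real.log_le_log (by positivity) h2
  have h4 : 0 ≤ Real.log ((⌈Real.exp (C * T)⌉₊ : ℝ) + 1) := by
    apply Real.log_nonneg
    have : (0 : ℝ) ≤ (⌈Real.exp (C * T)⌉₊ : ℝ) := Nat.cast_nonneg _
    linarith
  have h5 : Real.log ((⌈Real.exp (C * T)⌉₊ : ℝ) + 1) ^ (5 / 4 : ℝ) ≤
      (C + 2) ^ (5 / 4 : ℝ) * (T : ℝ) ^ (5 / 4 : ℝ) := by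
    rw [← Real.mul_rpow (by linarith) hT0]
    exact Real.rpow_le_rpow h4 h3 (by norm_num)
  set x : ℝ := (T : ℝ) ^ (1 / 4 : ℝ) with hx
  have hx0 : 0 ≤ x := Real.rpow_nonneg hT0 _
  have e1 : (T : ℝ) ^ (5 / 4 : ℝ) = x ^ 5 := by
    rw [hx, ← Real.rpow_natCast, ← Real.rpow_mul hT0]
    norm_num
  have e2 : (T : ℝ) = x ^ 4 := by
    rw [hx, ← Real.rpow_natCast, ← Real.rpow_mul hT0]
    norm_num
  have e3 : √(T : ℝ) = x ^ 2 := by
    rw [Real.sqrt_eq_rpow, hx, ← Real.rpow_natCast, ← Real.rpow_mul hT0]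
    norm_num
  rw [e1] at h5
  rw [e3, e2]
  have h6 : (C + 2) ^ (5 / 4 : ℝ) * x ^ 5 ≤ x ^ 6 / 2 := by
    have h7 : 0 ≤ x ^ 5 := by positivity
    have h8 := mul_le_mul_of_nonneg_right hT h7
    have h9 : x * x ^ 5 = x ^ 6 := by ring
    rw [h9] at h8
    linarith
  have h7 : x ^ 4 * x ^ 2 = x ^ 6 := by ring
  rw [h7]
  rw [← e2]
  linarith

private theorem V3_num (n : ℕ) : ∀ᶠ k : ℕ in atTop,
    (2 ^ k : ℝ) ^ (-(1 / 2) : ℝ) ≤
      Real.exp (-(⌈(n : ℝ) * √(k : ℝ)⌉₊ * √((⌈(n : ℝ) * √(k : ℝ)⌉₊ : ℕ) : ℝ))) := by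
  have h1 : Tendsto (fun k : ℕ => (k : ℝ) ^ (1 / 4 : ℝ)) atTop atTop :=
    (tendsto_rpow_atTop (by norm_num)).comp tendsto_natCast_atTop_atTop
  filter_upwards [h1.eventually_ge_atTop (2 * (((n : ℝ) + 1) * √((n : ℝ) + 1)) / Real.log 2),
    eventually_ge_atTop 1] with k hk hk1
  have hk1' : (1 : ℝ) ≤ k := by exact_mod_cast hk1
  have hk0 : (0 : ℝ) ≤ k := by linarith
  set y : ℝ := (k : ℝ) ^ (1 / 4 : ℝ) with hy
  have hy1 : 1 ≤ y := Real.one_le_rpow hk1' (by norm_num)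
  have e2 : (k : ℝ) = y ^ 4 := by
    rw [hy, ← Real.rpow_natCast, ← Real.rpow_mul hk0]
    norm_num
  have e3 : √(k : ℝ) = y ^ 2 := by
    rw [Real.sqrt_eq_rpow, hy, ← Real.rpow_natCast, ← Real.rpow_mul hk0]
    norm_num
  set N : ℕ := ⌈(n : ℝ) * √(k : ℝ)⌉₊ with hN
  have hlog : 0 < Real.log 2 := Real.log_pos (by norm_num)
  have h2 : (N : ℝ) ≤ ((n : ℝ) + 1) * y ^ 2 := by
    have h3 : (N : ℝ) < (n : ℝ) * √(k : ℝ) + 1 := Nat.ceil_lt_add_one (by positivity)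
    rw [e3] at h3
    nlinarith
  have h3 : √(N : ℝ) ≤ √((n : ℝ) + 1) * y := by
    have h4 := Real.sqrt_le_sqrt h2
    rwa [Real.sqrt_mul (by positivity), Real.sqrt_sq (by linarith)] at h4
  have h4 : (N : ℝ) * √(N : ℝ) ≤ (k : ℝ) * Real.log 2 / 2 := by
    have h5 : (N : ℝ) * √(N : ℝ) ≤ (((n : ℝ) + 1) * y ^ 2) * (√((n : ℝ) + 1) * y) :=
      mul_le_mul h2 h3 (Real.sqrt_nonneg _) (by positivity)
    have h6 : (((n : ℝ) + 1) * y ^ 2) * (√((n : ℝ) + 1) * y) =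
        (((n : ℝ) + 1) * √((n : ℝ) + 1)) * y ^ 3 := by ring
    rw [div_le_iff₀ hlog] at hk
    have h7 := mul_le_mul_of_nonneg_right hk (by positivity : (0 : ℝ) ≤ y ^ 3)
    rw [e2]
    rw [h6] at h5
    have h8 : y * Real.log 2 * y ^ 3 = y ^ 4 * Real.log 2 := by ring
    linarith
  have h5 : (2 ^ k : ℝ) ^ (-(1 / 2) : ℝ) = Real.exp (-((k : ℝ) * Real.log 2 / 2)) := by
    rw [Real.rpow_def_of_pos (by positivity), Real.log_pow]
    congr 1
    ring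
  rw [h5]
  exact Real.exp_le_exp.2 (by linarith)

theorem qg_ae (hP : OkD Γ D P) (hν : Den ν ρ) : ∀ᵐ ξ ∂(Pm ν),
    (∀ z, curv (P.X Γ D ξ) z < 0) → ∀ n : ℕ, ∀ᶠ k : ℕ in atTop,
      GN33.QG Γ (P.X Γ D ξ) n (n * √(k : ℝ)) ((2 ^ k : ℝ) ^ (-(1 / 2) : ℝ)) := by
  classical
  obtain ⟨s, hs, hs1, hcs⟩ := hP.c
  have hc : P.c = fun R => s * cn R := funext hcs
  have hcx : Cx Γ D P.m P.ψ P.L fun R => s * cn R := hc ▸ hP.cx
  have hw : Tendsto (fun T : ℕ => √(T : ℝ)) atTop atTop :=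
    Real.tendsto_sqrt_atTop.comp tendsto_natCast_atTop_atTop
  have hae : ∀ᵐ ξ ∂(Pm ν), ∀ n K : ℕ, ∀ᶠ T : ℕ in atTop,
      ¬ Bad Γ P.m P.ψ P.L (fun R => s * cn R) n K T ((K : ℝ) * Real.exp (-(T * √(T : ℝ)))) ξ :=
    ae_all_iff.2 fun n => ae_all_iff.2 fun K => V3_E10ae hν hw V3_cn hs hcx n K K
  filter_upwards [hae] with ξ hξ hneg' n
  have hrp := D2_rp hcx ξ
  set A : ℝ := ∫ w in D, Real.exp (ex Γ P.ψ P.L P.c ξ w) * √(dt (P.m w)) with hA
  set q : ℝ := Real.exp (-Real.log A) with hqd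
  have hq : 0 < q := Real.exp_pos _
  have heq : P.X Γ D ξ = fun z => q • mx Γ P.m P.ψ P.L (fun R => s * cn R) ξ z := by
    funext z
    have e1 : P.X Γ D ξ z = Real.exp (ex Γ P.ψ P.L P.c ξ z - Real.log A) • P.m z := rfl
    have e2 : mx Γ P.m P.ψ P.L (fun R => s * cn R) ξ z =
        Real.exp (ex Γ P.ψ P.L P.c ξ z) • P.m z := by
      rw [hc]
      rfl
    rw [e1, e2, smul_smul, hqd, ← Real.exp_add]
    congr 2
    ring
  have hneg : ∀ z, curv (mx Γ P.m P.ψ P.L (fun R => s * cn R) ξ) z < 0 := by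
    intro z
    have e1 := hneg' z
    rw [heq, E2_scale hrp hq] at e1
    by_contra h2
    push Not at h2
    exact absurd e1 (not_lt.2 (div_nonneg h2 hq.le))
  have htl : ∀ g : Γ, tl (P.X Γ D ξ) g =
      √q * tl (mx Γ P.m P.ψ P.L (fun R => s * cn R) ξ) g := by
    intro g
    rw [heq]
    exact D1_scale_tl hrp hq g
  have hsq : 0 < √q := Real.sqrt_pos.2 hq
  obtain ⟨K, hK⟩ := exists_nat_ge (1 / √q)
  have hK' : 1 ≤ √q * K := by
    rw [div_le_iff₀ hsq] at hK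
    linarith
  rcases Nat.eq_zero_or_pos n with rfl | hn
  · refine Eventually.of_forall fun k t e ht had => ?_
    obtain ⟨g, hg, -⟩ := had.ne
    rw [Nat.le_zero, Finset.card_eq_zero] at ht
    rw [ht] at hg
    exact absurd hg (Finset.notMem_empty g)
  have hn' : (0 : ℝ) < n := by exact_mod_cast hn
  have hNt : Tendsto (fun k : ℕ => ⌈(n : ℝ) * √(k : ℝ)⌉₊) atTop atTop :=
    tendsto_nat_ceil_atTop.comp (hw.const_mul_atTop hn')
  have hall : ∀ᶠ T : ℕ in atTop, ∀ n' ∈ Finset.range (n + 1),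
      ¬ Bad Γ P.m P.ψ P.L (fun R => s * cn R) n' K T ((K : ℝ) * Real.exp (-(T * √(T : ℝ)))) ξ :=
    (Filter.eventually_all_finset _).2 fun n' _ => hξ n' K
  filter_upwards [hNt.eventually hall, V3_num n] with k hk hnum t e ht had
  by_contra hlt
  push Not at hlt
  set N : ℕ := ⌈(n : ℝ) * √(k : ℝ)⌉₊ with hN
  have hRN : (n : ℝ) * √(k : ℝ) ≤ N := Nat.le_ceil _
  refine hk t.card (Finset.mem_range.2 (Nat.lt_succ_of_le ht)) ⟨hneg,
    fun i => (t.equivFin.symm i : Γ), fun i => had.prim _ (t.equivFin.symm i).2,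
    fun i j hij γ => had.nc _ (t.equivFin.symm i).2 _ (t.equivFin.symm j).2
      (fun h => hij (t.equivFin.symm.injective (Subtype.ext h))) γ,
    fun i => ?_, fun i => e (t.equivFin.symm i), ?_, fun i => ?_, ?_⟩
  · have h2 := (had.len _ (t.equivFin.symm i).2).trans hRN
    rw [htl] at h2
    have h3 : √q * tl (mx Γ P.m P.ψ P.L (fun R => s * cn R) ξ) (t.equivFin.symm i : Γ) ≤
        √q * (K * N) := by
      refine h2.trans ?_
      have h4 := mul_le_mul_of_nonneg_right hK' (Nat.cast_nonneg N : (0 : ℝ) ≤ N)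
      linarith
    exact le_of_mul_le_mul_left h3 hsq
  · obtain ⟨g, hg, hg0⟩ := had.ne
    intro h0
    have h1 := congrFun h0 (t.equivFin ⟨g, hg⟩)
    simp only [Equiv.symm_apply_apply, Pi.zero_apply] at h1
    exact hg0 h1
  · have h2 := (had.coef _ (t.equivFin.symm i).2).trans hRN
    have h3 : ((|e (t.equivFin.symm i)| : ℤ) : ℝ) ≤ ((N : ℤ) : ℝ) := by
      rw [Int.cast_abs]
      push_cast
      exact h2
    exact_mod_cast h3
  · have e1 : ∑ i : Fin t.card, (e (t.equivFin.symm i : Γ) : ℝ) *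
        tl (mx Γ P.m P.ψ P.L (fun R => s * cn R) ξ) (t.equivFin.symm i : Γ) =
        ∑ g ∈ t, (e g : ℝ) * tl (mx Γ P.m P.ψ P.L (fun R => s * cn R) ξ) g := by
      rw [← Finset.sum_coe_sort t]
      exact Equiv.sum_comp t.equivFin.symm (fun g : t => (e (g : Γ) : ℝ) *
        tl (mx Γ P.m P.ψ P.L (fun R => s * cn R) ξ) (g : Γ))
    have h2 : ∑ g ∈ t, (e g : ℝ) * tl (P.X Γ D ξ) g =
        √q * ∑ g ∈ t, (e g : ℝ) * tl (mx Γ P.m P.ψ P.L (fun R => s * cn R) ξ) g := by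
      rw [Finset.mul_sum]
      refine Finset.sum_congr rfl fun g _ => ?_
      rw [htl]
      ring
    rw [h2, abs_mul, abs_of_pos hsq] at hlt
    show |∑ i : Fin t.card, (e (t.equivFin.symm i : Γ) : ℝ) *
        tl (mx Γ P.m P.ψ P.L (fun R => s * cn R) ξ) (t.equivFin.symm i : Γ)| ≤ _
    rw [e1]
    refine le_of_mul_le_mul_left ((hlt.trans hnum).trans ?_) hsq
    have h4 := mul_le_mul_of_nonneg_right hK' (Real.exp_pos (-(N * √(N : ℝ)))).le
    linarith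

end B35
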