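import Pool.Agent.LibBGM20.E7
import Pool.Agent.LibB35.Defs

/-! Row V3a (GenericWindows v5): the slices of the product measure of a law with a smooth density; the measure of
the event that a combination of lengths is small (copy of `LibBGM20/E7`). -/

open MeasureTheory Set Filter Topology
open scoped ContDiff unitInterval ENNReal NNReal

namespace B35

open BGS BR BGM
open Pool.BGR (upI)

variable {Γ : Type} [Group Γ] [MulAction Γ Pl] {D : Set Pl} {m : Pl → Co} {ψ : Pl → ℝ} {L : ℕ}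
  {c : ℕ → ℝ} {ν : Measure I} {ρ : ℝ → ℝ}

/-- The piecewise linear function which is one on `[x, x + d]` and zero at the distance `e`. -/
private noncomputable def V3_f (x d e y : ℝ) : ℝ :=
  max 0 (min 1 (min (1 + (y - x) / e) (1 + (x + d - y) / e)))

private theorem V3_f_cont (x d e : ℝ) : Continuous (V3_f x d e) := by
  unfold V3_f
  fun_prop

private theorem V3_f_one {x d e y : ℝ} (he : 0 < e) (h1 : x ≤ y) (h2 : y ≤ x + d) :
    V3_f x d e y = 1 := by
  unfold V3_f
  have h3 : 0 ≤ (y - x) / e := div_nonneg (by linarith) he.le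
  have h4 : 0 ≤ (x + d - y) / e := div_nonneg (by linarith) he.le
  rw [min_eq_left (le_min (by linarith) (by linarith)), max_eq_right zero_le_one]

private theorem V3_f_le {x d e y : ℝ} (he : 0 < e) :
    V3_f x d e y ≤ (Icc (x - e) (x + d + e)).indicator (fun _ => (1 : ℝ)) y := by
  by_cases hy : y ∈ Icc (x - e) (x + d + e)
  · rw [indicator_of_mem hy]
    exact max_le zero_le_one (min_le_left _ _)
  · rw [indicator_of_notMem hy]
    unfold V3_f
    refine max_le le_rfl ?_
    rw [mem_Icc, not_and_or, not_le, not_le] at hy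
    rcases hy with hy | hy
    · refine (min_le_right _ _).trans ((min_le_left _ _).trans ?_)
      have h1 : (y - x) / e ≤ -1 := by
        rw [div_le_iff₀ he]
        linarith
      linarith
    · refine (min_le_right _ _).trans ((min_le_right _ _).trans ?_)
      have h1 : (x + d - y) / e ≤ -1 := by
        rw [div_le_iff₀ he]
        linarith
      linarith

private theorem V3_f_nn (x d e y : ℝ) : 0 ≤ V3_f x d e y := le_max_left _ _

/-- The law of an interval. -/
private theorem V3_int (hν : Den ν ρ) : ∃ M : ℝ, 0 < M ∧ ∀ x d e : ℝ, 0 ≤ d → 0 < e →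
    ∫ t : I, V3_f x d e t ∂ν ≤ M * (d + 2 * e) := by
  obtain ⟨M, hM⟩ := isCompact_Icc.exists_bound_of_continuousOn (s := Icc (0 : ℝ) 1)
    hν.smooth.continuous.continuousOn
  refine ⟨|M| + 1, by positivity, fun x d e hd he => ?_⟩
  have hc : Continuous fun y : ℝ => ((V3_f x d e y : ℝ) : ℂ) :=
    Complex.continuous_ofReal.comp (V3_f_cont x d e)
  have h1 := hν.int _ hc
  have h2 : ∫ t : I, ((V3_f x d e t : ℝ) : ℂ) ∂ν = ((∫ t : I, V3_f x d e t ∂ν : ℝ) : ℂ) :=
    integral_ofReal
  have h3 : ∫ t in (0 : ℝ)..1, (ρ t : ℂ) * ((V3_f x d e t : ℝ) : ℂ) =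
      ((∫ t in (0 : ℝ)..1, ρ t * V3_f x d e t : ℝ) : ℂ) := by
    rw [← intervalIntegral.integral_ofReal]
    refine intervalIntegral.integral_congr fun t _ => ?_
    push_cast
    ring
  rw [h2, h3] at h1
  have h4 : ∫ t : I, V3_f x d e t ∂ν = ∫ t in (0 : ℝ)..1, ρ t * V3_f x d e t := by
    exact_mod_cast h1
  rw [h4, intervalIntegral.integral_of_le zero_le_one]
  have hS : MeasurableSet (Icc (x - e) (x + d + e)) := measurableSet_Icc
  have h5 : ∫ t in Ioc (0 : ℝ) 1, ρ t * V3_f x d e t ≤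
      ∫ t in Ioc (0 : ℝ) 1, (|M| + 1) * (Icc (x - e) (x + d + e)).indicator (fun _ => (1 : ℝ)) t := by
    refine setIntegral_mono_on ?_ ?_ measurableSet_Ioc fun t ht => ?_
    · exact ((hν.smooth.continuous.mul (V3_f_cont x d e)).integrableOn_Icc).mono_set
        Ioc_subset_Icc_self
    · refine Integrable.const_mul ?_ _
      exact (integrable_const (1 : ℝ)).indicator hS
    · have h6 := hM t (Ioc_subset_Icc_self ht)
      rw [Real.norm_eq_abs] at h6
      have h7 : ρ t ≤ |M| + 1 := (le_abs_self _).trans (h6.trans ((le_abs_self M).trans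
        (by linarith)))
      exact mul_le_mul h7 (V3_f_le he) (V3_f_nn x d e t) (by positivity)
  refine h5.trans ?_
  rw [integral_const_mul]
  refine mul_le_mul_of_nonneg_left ?_ (by positivity)
  rw [setIntegral_indicator hS, setIntegral_const, smul_eq_mul, mul_one, Measure.real]
  have h6 : volume (Ioc (0 : ℝ) 1 ∩ Icc (x - e) (x + d + e)) ≤
      ENNReal.ofReal (d + 2 * e) := by
    refine (measure_mono inter_subset_right).trans (le_of_eq ?_)
    rw [Real.volume_Icc]
    congr 1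
    ring
  exact ENNReal.toReal_le_of_le_ofReal (by positivity) h6

/-- A subset of the unit interval whose points are at mutual distance at most `d`. -/
theorem V3_diam (hν : Den ν ρ) : ∃ M : ℝ, 0 < M ∧ ∀ (A : Set I) (d : ℝ), 0 < d →
    (∀ s ∈ A, ∀ s' ∈ A, s ≤ s' → (s' : ℝ) - s ≤ d) → ν A ≤ ENNReal.ofReal (M * d) := by
  haveI := hν.prob
  obtain ⟨M, hM, hint⟩ := V3_int hν
  refine ⟨3 * M, by positivity, fun A d hd h => ?_⟩
  rcases A.eq_empty_or_nonempty with rfl | hne
  · rw [measure_empty]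
    exact zero_le
  · obtain ⟨B, hB⟩ : ∃ B : Set ℝ, B = (fun s : I => (s : ℝ)) '' A := ⟨_, rfl⟩
    have hBne : B.Nonempty := by
      rw [hB]
      exact hne.image _
    have hBb : BddBelow B := ⟨0, by
      rw [hB]
      rintro _ ⟨s, -, rfl⟩
      exact s.2.1⟩
    have hsub : ∀ s ∈ A, sInf B ≤ (s : ℝ) ∧ (s : ℝ) ≤ sInf B + d := by
      intro s hs
      have hsB : (s : ℝ) ∈ B := by
        rw [hB]
        exact ⟨s, hs, rfl⟩
      refine ⟨csInf_le hBb hsB, ?_⟩
      have h1 : (s : ℝ) - d ≤ sInf B := by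
        refine le_csInf hBne ?_
        rw [hB]
        rintro _ ⟨s', hs', rfl⟩
        show (s : ℝ) - d ≤ (s' : ℝ)
        rcases le_total s' s with hle | hle
        · have := h s' hs' s hs hle
          linarith
        · have h2 : (s : ℝ) ≤ s' := hle
          linarith
      linarith
    obtain ⟨x, hx⟩ : ∃ x : ℝ, x = sInf B := ⟨_, rfl⟩
    rw [← hx] at hsub
    have h1 : ν A ≤ ∫⁻ t : I, ENNReal.ofReal (V3_f x d d t) ∂ν := by
      have h2 : MeasurableSet {t : I | x ≤ (t : ℝ) ∧ (t : ℝ) ≤ x + d} :=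
        (measurableSet_le measurable_const measurable_subtype_coe).inter
          (measurableSet_le measurable_subtype_coe measurable_const)
      calc ν A ≤ ν {t : I | x ≤ (t : ℝ) ∧ (t : ℝ) ≤ x + d} := measure_mono hsub
        _ = ∫⁻ t : I, {t : I | x ≤ (t : ℝ) ∧ (t : ℝ) ≤ x + d}.indicator 1 t ∂ν :=
            (lintegral_indicator_one h2).symm
        _ ≤ _ := by
            refine lintegral_mono fun t => ?_
            by_cases ht : t ∈ {t : I | x ≤ (t : ℝ) ∧ (t : ℝ) ≤ x + d}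
            · rw [indicator_of_mem ht]
              dsimp only
              rw [V3_f_one hd ht.1 ht.2, ENNReal.ofReal_one]
              exact le_rfl
            · rw [indicator_of_notMem ht]
              exact zero_le
    refine h1.trans ?_
    have hm : Continuous fun t : I => V3_f x d d t :=
      (V3_f_cont x d d).comp continuous_subtype_val
    rw [← ofReal_integral_eq_lintegral_ofReal (Integrable.of_bound hm.aestronglyMeasurable 1
      (Eventually.of_forall fun t => ?_)) (Eventually.of_forall fun t => V3_f_nn _ _ _ _)]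
    · refine ENNReal.ofReal_le_ofReal ((hint x d d hd.le hd).trans (le_of_eq ?_))
      ring
    · rw [Real.norm_eq_abs, abs_of_nonneg (V3_f_nn _ _ _ _)]
      exact max_le zero_le_one (min_le_left _ _)

private theorem V3_upI [IsProbabilityMeasure ν] (i : Dir) :
    ((Pm ν).prod ν).map (fun p : (Dir → I) × I => upI p.1 i p.2) = Pm ν := by
  unfold Pm
  refine Measure.eq_infinitePi _ fun s t ht => ?_
  rw [Measure.map_apply (Pool.BGR.measurable_upI i)
    (MeasurableSet.pi s.countable_toSet fun j _ => ht j)]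
  by_cases hi : i ∈ s
  · have h1 : (fun p : (Dir → I) × I => upI p.1 i p.2) ⁻¹' (Set.pi s t) =
        (Set.pi (s.erase i) t) ×ˢ (t i) := by
      ext ⟨ξ, u⟩
      simp only [mem_preimage, Set.mem_pi, Finset.mem_coe, mem_prod, Finset.mem_erase]
      constructor
      · intro h
        constructor
        · rintro j ⟨hj, hjs⟩
          have h2 := h j hjs
          rw [upI, Function.update_of_ne hj] at h2
          exact h2
        · have h2 := h i hi
          rw [upI, Function.update_self] at h2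
          exact h2
      · rintro ⟨h2, h3⟩ j hj
        by_cases hji : j = i
        · subst hji
          rw [upI, Function.update_self]
          exact h3
        · rw [upI, Function.update_of_ne hji]
          exact h2 j ⟨hji, hj⟩
    rw [h1, Measure.prod_prod, Measure.infinitePi_pi _ (fun j _ => ht j),
      Finset.prod_erase_mul _ _ hi]
  · have h1 : (fun p : (Dir → I) × I => upI p.1 i p.2) ⁻¹' (Set.pi s t) =
        (Set.pi s t) ×ˢ univ := by
      ext ⟨ξ, u⟩
      simp only [mem_preimage, Set.mem_pi, Finset.mem_coe, mem_prod, mem_univ, and_true]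
      refine forall_congr' fun j => forall_congr' fun hj => ?_
      have hji : j ≠ i := fun h => hi (h ▸ hj)
      rw [upI, Function.update_of_ne hji]
    rw [h1, Measure.prod_prod, Measure.infinitePi_pi _ (fun j _ => ht j), measure_univ, mul_one]

/-- The slices in one coordinate. -/
theorem V3_slice [IsProbabilityMeasure ν] {A : Set (Dir → I)} (hA : MeasurableSet A) (i : Dir)
    (c : ℝ≥0∞) (h : ∀ ξ, ν {s | upI ξ i s ∈ A} ≤ c) : Pm ν A ≤ c := by
  haveI : IsProbabilityMeasure (Pm ν) := by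
    unfold Pm
    infer_instance
  have h1 : Pm ν A = ((Pm ν).prod ν) ((fun p : (Dir → I) × I => upI p.1 i p.2) ⁻¹' A) := by
    conv_lhs => rw [← V3_upI i]
    exact Measure.map_apply (Pool.BGR.measurable_upI i) hA
  rw [h1, Measure.prod_apply (Pool.BGR.measurable_upI i hA)]
  calc ∫⁻ ξ, ν (Prod.mk ξ ⁻¹' ((fun p : (Dir → I) × I => upI p.1 i p.2) ⁻¹' A)) ∂(Pm ν)
      ≤ ∫⁻ _, c ∂(Pm ν) := lintegral_mono fun ξ => h ξ
    _ = c := by rw [lintegral_const, measure_univ, mul_one]

/-- `E7_slice` for the law `ν`. -/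
theorem V3_E7 (hν : Den ν ρ) (h : Cx Γ D m ψ L c) : ∃ κ : ℝ, 0 < κ ∧ ∀ (R : ℕ) (p : ℤ × ℤ),
    p ∈ grid L (R + 1) → ∀ (n : ℕ) (g : Γ) (f : Fin n → Γ), g ≠ 1 → (∀ i, f i ≠ 1) →
    ∀ (a₀ : ℤ) (a : Fin n → ℤ), a₀ ≠ 0 → ∀ ε : ℝ, 0 < ε →
    Pm ν {ξ : Dir → I | Gd Γ m ψ L c g f (R + 1) p ξ ∧
      |a₀ * tl (mx Γ m ψ L c ξ) g + ∑ i, a i * tl (mx Γ m ψ L c ξ) (f i)| ≤ ε} ≤
      ENNReal.ofReal (ε * (R + 1) / (κ * c R)) := by
  haveI := hν.prob
  obtain ⟨κ, hκ, hgain⟩ := E6_gain h
  obtain ⟨M, hM, hdiam⟩ := V3_diam hν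
  refine ⟨κ / (2 * M), by positivity, ?_⟩
  intro R p hp n g f hg hf a₀ a ha₀ ε hε
  have hRn : (0 : ℝ) ≤ R := Nat.cast_nonneg R
  have hR1 : (0 : ℝ) < (R : ℝ) + 1 := by linarith
  have hcR := h.cs.pos R
  set F : (Dir → I) → ℝ := fun ξ =>
    a₀ * tl (mx Γ m ψ L c ξ) g + ∑ i, a i * tl (mx Γ m ψ L c ξ) (f i) with hF
  have hFc : Continuous F := by
    rw [hF]
    exact (continuous_const.mul (E3_tl h g)).add
      (continuous_finsetSum _ fun i _ => continuous_const.mul (E3_tl h (f i)))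
  have hmeas : MeasurableSet {ξ : Dir → I | Gd Γ m ψ L c g f (R + 1) p ξ ∧ |F ξ| ≤ ε} := by
    have h1 : {ξ : Dir → I | Gd Γ m ψ L c g f (R + 1) p ξ ∧ |F ξ| ≤ ε} =
        {ξ : Dir → I | Gd Γ m ψ L c g f (R + 1) p ξ} ∩ {ξ : Dir → I | |F ξ| ≤ ε} := by
      ext ξ
      simp only [mem_ofPred_eq, mem_inter_iff]
    rw [h1]
    exact (E4_meas h g f (Nat.le_add_left 1 R) p).inter
      (measurableSet_le hFc.abs.measurable measurable_const)
  have hd : 0 < ε * (R + 1) / (κ / 2 * c R) := by positivity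
  have he : ε * (R + 1) / (κ / (2 * M) * c R) = M * (ε * (R + 1) / (κ / 2 * c R)) := by
    field_simp
  rw [he]
  refine V3_slice hmeas (R, p) _ ?_
  intro ξ
  refine hdiam _ _ hd ?_
  rintro s ⟨hs1, hs2⟩ s' ⟨hs1', hs2'⟩ hle
  have h1 := hgain ξ R p hp s s' hle n g f hg hs1'
  have h2 : F (upI ξ (R, p) s') - F (upI ξ (R, p) s) =
      a₀ * (tl (mx Γ m ψ L c (upI ξ (R, p) s')) g - tl (mx Γ m ψ L c (upI ξ (R, p) s)) g) := by
    have h3 : ∑ i, a i * tl (mx Γ m ψ L c (upI ξ (R, p) s')) (f i) =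
        ∑ i, a i * tl (mx Γ m ψ L c (upI ξ (R, p) s)) (f i) :=
      Finset.sum_congr rfl fun i _ => by rw [E5_same h ξ hp hle hs1 i (hf i)]
    show (a₀ * tl (mx Γ m ψ L c (upI ξ (R, p) s')) g +
        ∑ i, a i * tl (mx Γ m ψ L c (upI ξ (R, p) s')) (f i)) -
      (a₀ * tl (mx Γ m ψ L c (upI ξ (R, p) s)) g +
        ∑ i, a i * tl (mx Γ m ψ L c (upI ξ (R, p) s)) (f i)) = _
    rw [h3]
    ring
  have h3 : |F (upI ξ (R, p) s') - F (upI ξ (R, p) s)| ≤ 2 * ε := by
    refine (abs_sub _ _).trans ?_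
    linarith
  have h4 : (1 : ℝ) ≤ |(a₀ : ℝ)| := by
    rw [← Int.cast_abs]
    exact_mod_cast Int.one_le_abs ha₀
  rw [h2, abs_mul] at h3
  set G : ℝ := tl (mx Γ m ψ L c (upI ξ (R, p) s')) g - tl (mx Γ m ψ L c (upI ξ (R, p) s)) g with hG
  have h5 : G ≤ 2 * ε := by
    have h6 : 1 * |G| ≤ |(a₀ : ℝ)| * |G| := mul_le_mul_of_nonneg_right h4 (abs_nonneg _)
    have h7 := le_abs_self G
    linarith
  have h6 : κ * c R / (R + 1) * ((s' : ℝ) - s) ≤ 2 * ε := h1.trans h5
  rw [le_div_iff₀ (by positivity)]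
  have h7 : κ * c R / (R + 1) * ((s' : ℝ) - s) * (R + 1) ≤ 2 * ε * (R + 1) :=
    mul_le_mul_of_nonneg_right h6 hR1.le
  have h8 : κ * c R / (R + 1) * ((s' : ℝ) - s) * (R + 1) = κ * c R * ((s' : ℝ) - s) := by
    field_simp
  rw [h8] at h7
  nlinarith

end B35
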